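import Pool.Agent.H13.CA.Defs
import Pool.Agent.H85.CH.Gd3
import Pool.Agent.H91.CA.Kru

/-!
# CH-ALL, KRU: `closure (P BB) ∩ R = P`

`R = k⟦X_0, .., X_m⟧`, `I = (X_0, .., X_(m-1))`, `P ≤ I` prime, `io : R → K⟦X_0, .., X_(m-1)⟧` with
`io X_i = X_i` (`i < m`), `io X_m = C u`, given by its coefficients.  If `io x` lies in
`P BB + (order ≥ s)` for all `s` then `x ∈ P`.

PROOF.  `κ` = the image of the fraction field of `k⟦u⟧` in `K`, `r : K → κ` a `κ`-linear retraction
(exists: vector spaces), applied to the coefficients it gives a `κ⟦X⟧`-linear map `π : K⟦X⟧ → κ⟦X⟧`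
which is the identity on `κ⟦X⟧` and respects the order.  So `io x = ∑ io (p_i) b_i + (order ≥ s)` with
`b_i ∈ κ⟦X⟧`; replace the `b_i` by polynomials over `κ` (modulo order `≥ s`) and multiply by a power of
`u`: `u ^ N x ∈ P + I ^ s`.  In the noetherian local ring `(R/P)_I` the image of `x` lies in all powers
of the maximal ideal (`u ∉ I`), so it is `0` (Krull); `P ≤ I` prime gives `x ∈ P`.
-/

open MvPowerSeries

namespace Pool.Agent.H61.CA

open Pool.Agent.H13.CA

/-- The properties of the map `io : k⟦X_0, .., X_m⟧ → K⟦X_0, .., X_(m-1)⟧`: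
the coefficient of `X^d` of `io f` is the image of the series in `u` formed by the coefficients of
`f` at the monomials `X^d X_m^e`. -/
def IsIo {m : ℕ} {k K : Type*} [CommRing k] [CommRing K] [Algebra (PowerSeries k) K]
    (io : MvPowerSeries (Fin (m + 1)) k →+* MvPowerSeries (Fin m) K) : Prop :=
  ∀ (f : MvPowerSeries (Fin (m + 1)) k) (d : Fin m →₀ ℕ),
    coeff d (io f) = algebraMap (PowerSeries k) K
      (PowerSeries.mk fun e => coeff (d.mapDomain Fin.castSucc + Finsupp.single (Fin.last m) e) f)

section

variable {m : ℕ} {k K : Type*} [Field k] [Field K] [Algebra (PowerSeries k) K]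

/-- the exponent with the first part `d` and the last entry `e` -/
private noncomputable def nx (d : Fin m →₀ ℕ) (e : ℕ) : Fin (m + 1) →₀ ℕ :=
  d.mapDomain Fin.castSucc + Finsupp.single (Fin.last m) e

private theorem nx_castSucc (d : Fin m →₀ ℕ) (e : ℕ) (i : Fin m) : nx d e i.castSucc = d i := by
  unfold nx
  rw [Finsupp.add_apply, Finsupp.mapDomain_apply (Fin.castSucc_injective m),
    Finsupp.single_eq_of_ne (Fin.castSucc_lt_last i).ne, add_zero]

private theorem nx_last (d : Fin m →₀ ℕ) (e : ℕ) : nx d e (Fin.last m) = e := by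
  unfold nx
  rw [Finsupp.add_apply, Finsupp.mapDomain_of_notMem_range, Finsupp.single_eq_same, zero_add]
  rintro ⟨i, hi⟩
  exact (Fin.castSucc_lt_last i).ne hi

private theorem nx_inj {d d' : Fin m →₀ ℕ} {e e' : ℕ} : nx d e = nx d' e' ↔ d = d' ∧ e = e' := by
  constructor
  · intro h
    constructor
    · ext i
      have h1 := DFunLike.congr_fun h i.castSucc
      rwa [nx_castSucc, nx_castSucc] at h1
    · have h1 := DFunLike.congr_fun h (Fin.last m)
      rwa [nx_last, nx_last] at h1
  · rintro ⟨rfl, rfl⟩
    rfl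

private theorem nx_zero (e : ℕ) : (Finsupp.single (Fin.last m) e : Fin (m + 1) →₀ ℕ) = nx 0 e := by
  unfold nx
  rw [Finsupp.mapDomain_zero, zero_add]

private theorem nx_single (i : Fin m) : (Finsupp.single i.castSucc 1 : Fin (m + 1) →₀ ℕ) = nx (Finsupp.single i 1) 0 := by
  unfold nx
  rw [Finsupp.mapDomain_single, Finsupp.single_zero, add_zero]

private theorem nx_surj (n : Fin (m + 1) →₀ ℕ) : ∃ d : Fin m →₀ ℕ, n = nx d (n (Fin.last m)) ∧ ∀ i, d i = n i.castSucc := by
  refine ⟨Finsupp.equivFunOnFinite.symm fun i => n i.castSucc, ?_, fun i => rfl⟩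
  ext j
  refine Fin.lastCases ?_ (fun i => ?_) j
  · rw [nx_last]
  · rw [nx_castSucc]
    rfl

/-- choice of a first variable of an exponent -/
private def pk (n : Fin (m + 1) →₀ ℕ) (i : Fin m) : Prop := ∃ h : ∃ j : Fin m, n j.castSucc ≠ 0, Classical.choose h = i

open Classical in
private noncomputable def qx (x : MvPowerSeries (Fin (m + 1)) k) (i : Fin m) : MvPowerSeries (Fin (m + 1)) k := fun n =>
  if pk (n + Finsupp.single i.castSucc 1) i then coeff (n + Finsupp.single i.castSucc 1) x else 0

open Classical in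
private theorem coeff_qx (x : MvPowerSeries (Fin (m + 1)) k) (i : Fin m) (n : Fin (m + 1) →₀ ℕ) :
    coeff n (qx x i) = if pk (n + Finsupp.single i.castSucc 1) i then coeff (n + Finsupp.single i.castSucc 1) x else 0 := rfl

private theorem sum_qx {x : MvPowerSeries (Fin (m + 1)) k}
    (hx : ∀ n : Fin (m + 1) →₀ ℕ, (∀ i : Fin m, n i.castSucc = 0) → coeff n x = 0) :
    x = ∑ i : Fin m, X i.castSucc * qx x i := by
  classical
  ext n
  rw [map_sum]
  have h0 : ∀ i : Fin m, coeff n (X i.castSucc * qx x i) = if pk n i then coeff n x else 0 := by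
    intro i
    rw [H85.CH.coeff_X_mul']
    by_cases h : n i.castSucc = 0
    · have h1 : ¬ pk n i := by
        rintro ⟨h2, rfl⟩
        exact Classical.choose_spec h2 h
      simp [h, h1]
    · have h1 : n - Finsupp.single i.castSucc 1 + Finsupp.single i.castSucc 1 = n := by
        refine tsub_add_cancel_of_le ?_
        rw [Finsupp.single_le_iff]
        omega
      simp only [h, coeff_qx, h1]
      simp
  simp only [h0]
  by_cases h : ∃ j : Fin m, n j.castSucc ≠ 0
  · rw [Finset.sum_eq_single (Classical.choose h)]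
    · rw [if_pos ⟨h, rfl⟩]
    · intro i _ hi
      refine if_neg ?_
      rintro ⟨h1, rfl⟩
      exact hi rfl
    · intro hi
      exact absurd (Finset.mem_univ _) hi
  · push Not at h
    rw [hx n h]
    refine (Finset.sum_eq_zero fun i _ => ?_).symm
    rw [ite_self]

private theorem mem_pow (s : ℕ) (x : MvPowerSeries (Fin (m + 1)) k)
    (hx : ∀ n : Fin (m + 1) →₀ ℕ, (∑ i : Fin m, n i.castSucc) < s → coeff n x = 0) :
    x ∈ (Ideal.span {x | ∃ i : Fin (m + 1), i.val < m ∧ x = (X i : MvPowerSeries (Fin (m + 1)) k)}) ^ s := by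
  classical
  induction s generalizing x with
  | zero =>
    rw [pow_zero, Ideal.one_eq_top]
    exact Submodule.mem_top
  | succ s ih =>
    rw [sum_qx (x := x) fun n hn => hx n (by
      rw [Finset.sum_eq_zero fun i _ => hn i]
      exact Nat.succ_pos s), pow_succ']
    refine Ideal.sum_mem _ fun i _ => Ideal.mul_mem_mul (Ideal.subset_span ⟨i.castSucc, i.2, rfl⟩) ?_
    refine ih _ fun n hn => ?_
    rw [coeff_qx]
    have h1 : coeff (n + Finsupp.single i.castSucc 1) x = 0 := by
      refine hx _ ?_
      have h2 : ∑ j : Fin m, (n + Finsupp.single i.castSucc 1 : Fin (m + 1) →₀ ℕ) j.castSucc =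
          (∑ j : Fin m, n j.castSucc) + 1 := by
        simp only [Finsupp.add_apply]
        rw [Finset.sum_add_distrib]
        congr 1
        rw [Finset.sum_eq_single i]
        · exact Finsupp.single_eq_same
        · intro j _ hj
          exact Finsupp.single_eq_of_ne fun h => hj (Fin.castSucc_injective m h)
        · intro h
          exact absurd (Finset.mem_univ i) h
      omega
    rw [h1, ite_self]

private theorem kiota {io : MvPowerSeries (Fin (m + 1)) k →+* MvPowerSeries (Fin m) K} (hio : IsIo io)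
    (hinj : Function.Injective (algebraMap (PowerSeries k) K)) : Pool.Agent.H91.CA.KIota io := by
  classical
  have hio' : ∀ (f : MvPowerSeries (Fin (m + 1)) k) (d : Fin m →₀ ℕ),
      coeff d (io f) = algebraMap (PowerSeries k) K (PowerSeries.mk fun e => coeff (nx d e) f) := hio
  refine ⟨fun x e => ⟨_, hio x e⟩, fun c => ?_, fun i => ?_, fun s x hx => ?_⟩
  · refine ⟨fun n => if n = Finsupp.single (Fin.last m) (n (Fin.last m)) then PowerSeries.coeff (n (Fin.last m)) c else 0, ?_⟩
    ext d
    rw [hio', coeff_C]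
    have h1 : ∀ e, coeff (nx d e) (fun n => if n = Finsupp.single (Fin.last m) (n (Fin.last m)) then
        PowerSeries.coeff (n (Fin.last m)) c else 0 : MvPowerSeries (Fin (m + 1)) k) =
        if d = 0 then PowerSeries.coeff e c else 0 := by
      intro e
      show (if nx d e = Finsupp.single (Fin.last m) (nx d e (Fin.last m)) then
        PowerSeries.coeff (nx d e (Fin.last m)) c else 0) = _
      rw [nx_last, nx_zero]
      simp only [nx_inj, and_true]
    simp only [h1]
    by_cases hd : d = 0
    · simp only [hd, if_true]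
      congr 1
      ext e
      rw [PowerSeries.coeff_mk]
    · simp only [hd, if_false]
      have h2 : (PowerSeries.mk fun _ => (0 : k)) = 0 := by
        ext e
        rw [PowerSeries.coeff_mk, map_zero]
      rw [h2, map_zero]
  · ext d
    rw [hio', coeff_X]
    have h1 : ∀ e, coeff (nx d e) (X i.castSucc : MvPowerSeries (Fin (m + 1)) k) =
        if d = Finsupp.single i 1 ∧ e = 0 then 1 else 0 := by
      intro e
      rw [coeff_X, nx_single]
      simp only [nx_inj]
    simp only [h1]
    by_cases hd : d = Finsupp.single i 1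
    · rw [if_pos hd]
      have h2 : (PowerSeries.mk fun e => if d = Finsupp.single i 1 ∧ e = 0 then (1 : k) else 0) = 1 := by
        ext e
        rw [PowerSeries.coeff_mk, PowerSeries.coeff_one]
        simp only [hd, true_and]
      rw [h2, map_one]
    · rw [if_neg hd]
      have h2 : (PowerSeries.mk fun e => if d = Finsupp.single i 1 ∧ e = 0 then (1 : k) else 0) = 0 := by
        ext e
        rw [PowerSeries.coeff_mk, map_zero]
        exact if_neg fun h => hd h.1
      rw [h2, map_zero]
  · refine mem_pow s x fun n hn => ?_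
    obtain ⟨d, hd, hdi⟩ := nx_surj n
    have h1 := hx d (by
      rw [Finsupp.degree_eq_sum]
      simpa only [hdi] using hn)
    rw [hio', map_eq_zero_iff _ hinj] at h1
    have h2 := congrArg (PowerSeries.coeff (n (Fin.last m))) h1
    rw [PowerSeries.coeff_mk, map_zero, ← hd] at h2
    exact h2

end

theorem kru {m : ℕ} {k K : Type*} [Field k] [Field K] [Algebra (PowerSeries k) K]
    [FaithfulSMul (PowerSeries k) K]
    {io : MvPowerSeries (Fin (m + 1)) k →+* MvPowerSeries (Fin m) K} (hio : IsIo io)
    (P : Ideal (MvPowerSeries (Fin (m + 1)) k)) [P.IsPrime] (hP : P ≤ Istd k (m + 1) m)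
    (x : MvPowerSeries (Fin (m + 1)) k)
    (hx : ∀ s, ∃ g ∈ P.map io, H85.CH.Lo s (io x - g)) : x ∈ P := by
  have hinj := FaithfulSMul.algebraMap_injective (PowerSeries k) K
  refine Pool.Agent.H91.CA.kru (kiota hio hinj) hinj hP fun s => ?_
  obtain ⟨g, hg, h⟩ := hx s
  exact ⟨io x - g, h, by rwa [sub_sub_cancel]⟩

end Pool.Agent.H61.CA
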