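import Pool.Agent.H85.CH.Gd3
import Pool.Agent.H44.CA.Coord

/-!
# CH-ALL, COORD: change of coordinates of `K⟦X_0, .., X_(m-1)⟧`

PROOF (helper44, H44/CA/Coord.lean).  `ψ` is the substitution `X i ↦ w i`.
-/

open MvPowerSeries

namespace Pool.Agent.H61.CA

theorem Lo_iff_order {m : ℕ} {K : Type*} [Field K] (s : ℕ) (f : MvPowerSeries (Fin m) K) :
    H85.CH.Lo s f ↔ (s : ℕ∞) ≤ f.order := by
  constructor
  · intro h
    exact MvPowerSeries.nat_le_order h
  · intro h d hd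
    exact MvPowerSeries.coeff_of_lt_order (lt_of_lt_of_le (by exact_mod_cast hd) h)

theorem coord {m : ℕ} {K : Type*} [Field K] (w : Fin m → MvPowerSeries (Fin m) K)
    (hw : Ideal.span (Set.range w) = Ideal.span (Set.range (X : Fin m → MvPowerSeries (Fin m) K))) :
    ∃ ψ : MvPowerSeries (Fin m) K ≃ₐ[K] MvPowerSeries (Fin m) K, (∀ i, ψ (X i) = w i) ∧
      (∀ s f, H85.CH.Lo s (ψ f) ↔ H85.CH.Lo s f) ∧ (∀ f, constantCoeff (ψ f) = constantCoeff f) := by
  obtain ⟨ψ, h1, h2, h3, h4⟩ := H44.CA.exists_coord w hw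
  refine ⟨ψ, h1, fun s f => ?_, h4⟩
  rw [Lo_iff_order, Lo_iff_order, h3]

end Pool.Agent.H61.CA
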