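import Pool.Agent.H13.CA.Big
import Pool.Agent.H61.CA.Coo

/-!
# CH-ALL, DESC: invariants and descent of stable ideals
(from helper85's graded descent and helper44's coordinates)
-/

open MvPowerSeries

namespace Pool.Agent.H61.CA

open Pool.Agent.H13.CA

/-- every ideal of a power series ring in finitely many variables over a field is closed -/
theorem ideal_closed {L : Type*} [Field L] {s : ℕ} (I : Ideal (MvPowerSeries (Fin s) L))
    (f : MvPowerSeries (Fin s) L) (h : ∀ t, ∃ g ∈ I, H85.CH.Lo t (f - g)) : f ∈ I := by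
  have hle : (Ideal.span (Set.range (X : Fin s → MvPowerSeries (Fin s) L))) ≠ ⊤ := by
    intro h1
    have h2 : (1 : MvPowerSeries (Fin s) L) ∈
        Ideal.span (Set.range (X : Fin s → MvPowerSeries (Fin s) L)) := by
      rw [h1]; exact Submodule.mem_top
    have h3 : Ideal.span (Set.range (X : Fin s → MvPowerSeries (Fin s) L)) ≤
        RingHom.ker (constantCoeff (σ := Fin s) (R := L)) := by
      rw [Ideal.span_le]
      rintro _ ⟨i, rfl⟩
      exact MvPowerSeries.constantCoeff_X i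
    have h4 := h3 h2
    rw [RingHom.mem_ker, map_one] at h4
    exact one_ne_zero h4
  have hH : IsHausdorff (Ideal.span (Set.range (X : Fin s → MvPowerSeries (Fin s) L)))
      (MvPowerSeries (Fin s) L ⧸ I) := IsHausdorff.of_isLocalRing _ _ hle
  rw [← Ideal.Quotient.eq_zero_iff_mem]
  refine hH.haus' _ fun t => ?_
  obtain ⟨g, hg, hfg⟩ := h t
  rw [SModEq.zero]
  have h5 : Ideal.Quotient.mk I f = Ideal.Quotient.mk I (f - g) := by
    rw [map_sub, Ideal.Quotient.eq_zero_iff_mem.2 hg, sub_zero]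
  rw [h5]
  have h6 : f - g ∈ (Ideal.span (Set.range (X : Fin s → MvPowerSeries (Fin s) L))) ^ t :=
    Pool.Agent.H84.CA.mem_vI_pow.2 hfg
  have h7 : Ideal.Quotient.mk I (f - g) = (f - g) • (1 : MvPowerSeries (Fin s) L ⧸ I) := by
    have h8 : (f - g) • (Ideal.Quotient.mk I (1 : MvPowerSeries (Fin s) L)) =
        Ideal.Quotient.mk I ((f - g) • (1 : MvPowerSeries (Fin s) L)) := rfl
    rw [smul_eq_mul, mul_one, map_one] at h8
    exact h8.symm
  rw [h7]
  exact Submodule.smul_mem_smul h6 Submodule.mem_top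

section

variable {k L : Type*} [Field k] [Field L] [Algebra k L] {s : ℕ}
    {c : MvPowerSeries (Fin s) k →ₐ[k] MvPowerSeries (Fin s) L}

/-- `c = ψ ∘ map (algebraMap k L)` for a change of coordinates `ψ` -/
theorem exists_psi (hc0 : ∀ i, constantCoeff (c (X i)) = 0)
    (hc : Ideal.span (Set.range fun i => c (X i)) = Ideal.span (Set.range X)) :
    ∃ ψ : MvPowerSeries (Fin s) L ≃ₐ[L] MvPowerSeries (Fin s) L,
      (∀ i, ψ (X i) = c (X i)) ∧ (∀ t f, H85.CH.Lo t (ψ f) ↔ H85.CH.Lo t f) ∧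
      (∀ f, constantCoeff (ψ f) = constantCoeff f) ∧
      ∀ f, c f = ψ (MvPowerSeries.map (algebraMap k L) f) := by
  obtain ⟨ψ, h1, h2, h3⟩ := coord (fun i => c (X i)) hc
  refine ⟨ψ, h1, h2, h3, ?_⟩
  let d : MvPowerSeries (Fin s) k →ₐ[k] MvPowerSeries (Fin s) L :=
    { (ψ : MvPowerSeries (Fin s) L →+* MvPowerSeries (Fin s) L).comp
        (MvPowerSeries.map (algebraMap k L)) with
      commutes' := by
        intro a
        change ψ (MvPowerSeries.map (algebraMap k L) (algebraMap k (MvPowerSeries (Fin s) k) a)) = _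
        have e1 : MvPowerSeries.map (algebraMap k L) (algebraMap k (MvPowerSeries (Fin s) k) a) =
            algebraMap L (MvPowerSeries (Fin s) L) (algebraMap k L a) := by
          rw [MvPowerSeries.algebraMap_apply, MvPowerSeries.algebraMap_apply, MvPowerSeries.map_C]
          rfl
        rw [e1, AlgEquiv.commutes, MvPowerSeries.algebraMap_apply, MvPowerSeries.algebraMap_apply]
        rfl }
  have hd : c = d := algHom_ext_mv hc0 (fun i => by
    change c (X i) = ψ (MvPowerSeries.map (algebraMap k L) (X i))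
    rw [MvPowerSeries.map_X, h1])
  intro f
  rw [hd]
  rfl

theorem desc_inj' (hc0 : ∀ i, constantCoeff (c (X i)) = 0)
    (hc : Ideal.span (Set.range fun i => c (X i)) = Ideal.span (Set.range X)) :
    Function.Injective c := by
  obtain ⟨ψ, -, -, -, h4⟩ := exists_psi hc0 hc
  intro f g hfg
  rw [h4, h4] at hfg
  have h5 := ψ.injective hfg
  ext d
  have h6 := congrArg (coeff d) h5
  rw [MvPowerSeries.coeff_map, MvPowerSeries.coeff_map] at h6
  exact (algebraMap k L).injective h6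

/-- the data for the graded descent -/
private theorem transport (_hc0 : ∀ i, constantCoeff (c (X i)) = 0)
    {ψ : MvPowerSeries (Fin s) L ≃ₐ[L] MvPowerSeries (Fin s) L}
    (h1 : ∀ i, ψ (X i) = c (X i)) (h3 : ∀ f, constantCoeff (ψ f) = constantCoeff f)
    (h4 : ∀ f, c f = ψ (MvPowerSeries.map (algebraMap k L) f))
    {α : MvPowerSeries (Fin s) L ≃ₐ[k] MvPowerSeries (Fin s) L} (hinv : ∀ f, α (c f) = c f)
    {τ : L ≃ₐ[k] L} (hτ : ∀ x, constantCoeff (α x) = τ (constantCoeff x)) :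
    (∀ i, ψ.symm (α (ψ (X i))) = X i) ∧
    (∀ f, constantCoeff (ψ.symm (α (ψ f))) = τ (constantCoeff f)) ∧
    (∀ a : k, ψ.symm (α (ψ (C (algebraMap k L a)))) = C (algebraMap k L a)) := by
  have h3' : ∀ f, constantCoeff (ψ.symm f) = constantCoeff f := fun f => by
    rw [← h3, AlgEquiv.apply_symm_apply]
  refine ⟨fun i => ?_, fun f => ?_, fun a => ?_⟩
  · rw [h1, hinv, ← h1, AlgEquiv.symm_apply_apply]
  · rw [h3', hτ, h3]
  · have e : ψ (C (algebraMap k L a)) = c (C a) := by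
      rw [h4, MvPowerSeries.map_C]
    rw [e, hinv, ← e, AlgEquiv.symm_apply_apply]

theorem desc_inv' (hc0 : ∀ i, constantCoeff (c (X i)) = 0)
    (hc : Ideal.span (Set.range fun i => c (X i)) = Ideal.span (Set.range X))
    (𝒢 : Set (MvPowerSeries (Fin s) L ≃ₐ[k] MvPowerSeries (Fin s) L))
    (hinv : ∀ α ∈ 𝒢, ∀ f, α (c f) = c f)
    (hres : ∀ α ∈ 𝒢, ∃ τ : L ≃ₐ[k] L, ∀ x, constantCoeff (α x) = τ (constantCoeff x))
    (hfix : ∀ x : L, (∀ α ∈ 𝒢, constantCoeff (α (C x)) = x) → ∃ a : k, algebraMap k L a = x)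
    (x : MvPowerSeries (Fin s) L) (hx : ∀ α ∈ 𝒢, α x = x) : ∃ y, c y = x := by
  obtain ⟨ψ, h1, h2, h3, h4⟩ := exists_psi hc0 hc
  have key : ∀ d : Fin s →₀ ℕ, ∃ a : k, algebraMap k L a = coeff d (ψ.symm x) := by
    have hQ := H85.CH.fixed_coeff (τ := Fin s) (K := L)
      {Φ | ∃ α ∈ 𝒢, ∀ f, Φ f = ψ.symm (α (ψ f))}
      (fun Φ x => constantCoeff (Φ (C x))) ?_ ?_ ?_ ?_ ?_ (ψ.symm x) ?_
    · intro d
      refine hfix _ fun α hα => ?_
      let Φ : MvPowerSeries (Fin s) L →+* MvPowerSeries (Fin s) L :=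
        ((ψ.symm : MvPowerSeries (Fin s) L →+* MvPowerSeries (Fin s) L).comp
          (α : MvPowerSeries (Fin s) L →+* MvPowerSeries (Fin s) L)).comp
          (ψ : MvPowerSeries (Fin s) L →+* MvPowerSeries (Fin s) L)
      have hΦ : ∀ f, Φ f = ψ.symm (α (ψ f)) := fun f => rfl
      have h5 := hQ d Φ ⟨α, hα, hΦ⟩
      obtain ⟨τ, hτ⟩ := hres α hα
      have h6 := (transport hc0 h1 h3 h4 (hinv α hα) hτ).2.1
      have h7 : constantCoeff (Φ (C (coeff d (ψ.symm x)))) = τ (coeff d (ψ.symm x)) := by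
        rw [hΦ, h6, MvPowerSeries.constantCoeff_C]
      rw [h7] at h5
      rw [hτ, MvPowerSeries.constantCoeff_C, h5]
    · rintro Φ ⟨α, hα, hΦ⟩ i
      obtain ⟨τ, hτ⟩ := hres α hα
      rw [hΦ, (transport hc0 h1 h3 h4 (hinv α hα) hτ).1]
    · rintro Φ ⟨α, hα, hΦ⟩
      simp
    · rintro Φ ⟨α, hα, hΦ⟩ y z
      simp
    · rintro Φ ⟨α, hα, hΦ⟩ f
      obtain ⟨τ, hτ⟩ := hres α hα
      have h6 := (transport hc0 h1 h3 h4 (hinv α hα) hτ).2.1
      change constantCoeff (Φ f) = constantCoeff (Φ (C (constantCoeff f)))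
      rw [hΦ, hΦ, h6, h6, MvPowerSeries.constantCoeff_C]
    · intro b hb
      have h8 : ∃ a : k, algebraMap k L a = b := by
        refine hfix _ fun α hα => ?_
        obtain ⟨τ, hτ⟩ := hres α hα
        let Φ : MvPowerSeries (Fin s) L →+* MvPowerSeries (Fin s) L :=
          ((ψ.symm : MvPowerSeries (Fin s) L →+* MvPowerSeries (Fin s) L).comp
            (α : MvPowerSeries (Fin s) L →+* MvPowerSeries (Fin s) L)).comp
            (ψ : MvPowerSeries (Fin s) L →+* MvPowerSeries (Fin s) L)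
        have h9 := hb Φ ⟨α, hα, fun f => rfl⟩
        have h6 := (transport hc0 h1 h3 h4 (hinv α hα) hτ).2.1
        have h7 : constantCoeff (Φ (C b)) = τ b := by
          change constantCoeff (ψ.symm (α (ψ (C b)))) = τ b
          rw [h6, MvPowerSeries.constantCoeff_C]
        change constantCoeff (Φ (C b)) = b at h9
        rw [h7] at h9
        rw [hτ, MvPowerSeries.constantCoeff_C, h9]
      obtain ⟨a, rfl⟩ := h8
      rintro Φ ⟨α, hα, hΦ⟩
      obtain ⟨τ, hτ⟩ := hres α hα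
      rw [hΦ, (transport hc0 h1 h3 h4 (hinv α hα) hτ).2.2]
    · rintro Φ ⟨α, hα, hΦ⟩
      rw [hΦ, AlgEquiv.apply_symm_apply, hx α hα]
  choose y hy using key
  refine ⟨fun d => y d, ?_⟩
  rw [h4, ← AlgEquiv.apply_symm_apply ψ x]
  congr 1
  ext d
  rw [MvPowerSeries.coeff_map, ← hy d]
  rfl

theorem desc' (hc0 : ∀ i, constantCoeff (c (X i)) = 0)
    (hc : Ideal.span (Set.range fun i => c (X i)) = Ideal.span (Set.range X))
    (𝒢 : Set (MvPowerSeries (Fin s) L ≃ₐ[k] MvPowerSeries (Fin s) L))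
    (hinv : ∀ α ∈ 𝒢, ∀ f, α (c f) = c f)
    (hres : ∀ α ∈ 𝒢, ∃ τ : L ≃ₐ[k] L, ∀ x, constantCoeff (α x) = τ (constantCoeff x))
    (hfix : ∀ x : L, (∀ α ∈ 𝒢, constantCoeff (α (C x)) = x) → ∃ a : k, algebraMap k L a = x)
    (J : Ideal (MvPowerSeries (Fin s) L))
    (hJ : ∀ α ∈ 𝒢, ∀ x ∈ J, α x ∈ J) :
    (J.comap (c : MvPowerSeries (Fin s) k →+* MvPowerSeries (Fin s) L)).map
      (c : MvPowerSeries (Fin s) k →+* MvPowerSeries (Fin s) L) = J := by
  obtain ⟨ψ, h1, h2, h3, h4⟩ := exists_psi hc0 hc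
  apply le_antisymm Ideal.map_comap_le
  intro x hx
  set ψr : MvPowerSeries (Fin s) L →+* MvPowerSeries (Fin s) L :=
    (ψ : MvPowerSeries (Fin s) L →+* MvPowerSeries (Fin s) L) with hψr
  have hcomp : (c : MvPowerSeries (Fin s) k →+* MvPowerSeries (Fin s) L) =
      ψr.comp (MvPowerSeries.map (algebraMap k L)) := by
    ext1 f
    exact h4 f
  have hgd := H85.CH.graded_descent (τ := Fin s) (K := L) (k := k)
    {q | ∃ α ∈ 𝒢, ∃ τ : L ≃ₐ[k] L, (∀ x, constantCoeff (α x) = τ (constantCoeff x)) ∧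
      q.1 = (τ : L ≃+* L) ∧ ∀ f, q.2 f = ψ.symm (α (ψ f))}
    ?_ ?_ ?_ ?_ (J.comap ψr) ?_ (fun f hf => ideal_closed _ f hf)
  · have hx' : ψ.symm x ∈ J.comap ψr := by
      rw [Ideal.mem_comap]
      change ψ (ψ.symm x) ∈ J
      rwa [AlgEquiv.apply_symm_apply]
    have h5 : ψ.symm x ∈ Ideal.map (MvPowerSeries.map (σ := Fin s) (algebraMap k L))
        (Ideal.comap (MvPowerSeries.map (σ := Fin s) (algebraMap k L)) (J.comap ψr)) :=
      ideal_closed _ _ (fun t => hgd t _ hx')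
    have h6 := Ideal.mem_map_of_mem ψr h5
    rw [Ideal.map_map, ← hcomp, Ideal.comap_comap, ← hcomp] at h6
    have h7 : ψr (ψ.symm x) = x := AlgEquiv.apply_symm_apply ψ x
    rwa [h7] at h6
  · rintro ⟨q1, q2⟩ ⟨α, hα, τ, hτ, -, h⟩ i
    exact (h _).trans ((transport hc0 h1 h3 h4 (hinv α hα) hτ).1 i)
  · rintro ⟨q1, q2⟩ ⟨α, hα, τ, hτ, h0, h⟩ f
    change constantCoeff (q2 f) = q1 (constantCoeff f)
    have h0' : q1 = (τ : L ≃+* L) := h0
    rw [h0', h f]
    exact (transport hc0 h1 h3 h4 (hinv α hα) hτ).2.1 f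
  · rintro ⟨q1, q2⟩ ⟨α, hα, τ, hτ, h0, h⟩ a
    exact (h _).trans ((transport hc0 h1 h3 h4 (hinv α hα) hτ).2.2 a)
  · intro y hy
    refine hfix _ fun α hα => ?_
    obtain ⟨τ, hτ⟩ := hres α hα
    let Φ : MvPowerSeries (Fin s) L →+* MvPowerSeries (Fin s) L :=
      ((ψ.symm : MvPowerSeries (Fin s) L →+* MvPowerSeries (Fin s) L).comp
        (α : MvPowerSeries (Fin s) L →+* MvPowerSeries (Fin s) L)).comp
        (ψ : MvPowerSeries (Fin s) L →+* MvPowerSeries (Fin s) L)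
    have h9 : τ y = y := hy ((τ : L ≃+* L), Φ) ⟨α, hα, τ, hτ, rfl, fun f => rfl⟩
    rw [hτ, MvPowerSeries.constantCoeff_C, h9]
  · rintro ⟨q1, q2⟩ ⟨α, hα, τ, hτ, h0, h⟩ f hf
    rw [Ideal.mem_comap] at hf ⊢
    change ψ (q2 f) ∈ J
    have h10 : q2 f = ψ.symm (α (ψ f)) := h f
    rw [h10, AlgEquiv.apply_symm_apply]
    exact hJ α hα _ hf

end

end Pool.Agent.H61.CA
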