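import Pool.Agent.H61.CA.C7

/-!
# CORE C8: the ideal `Q₀ = c⁻¹ (P 𝔅)` is stable under a big subgroup

PROOF.  `W := {b | Q₀.map b.g = Q₀}` (a subgroup).  Every element `b₀` of `Lift k (special F')` has
`b₀.g = 1` (`k`-automorphism of `k`) and `b₀.f` an automorphism of `special F' = Γ`; `exists_lift` gives `b` with
`red b.f = b₀.f`, so `redL b = b₀` (`Lift.ext'`, `redL_f`), and `b ∈ W`: `γ (P 𝔅) = P 𝔅` since `γ ι = ι`, so
`x ∈ Q₀ ↔ c (b.g x) = γ (c x) ∈ P 𝔅 ↔ c x ∈ P 𝔅`.  So `W.map redL = ⊤`.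
-/

open MvPowerSeries

namespace Pool.Agent.H61.CA

open Pool.Agent.H13.CA

/-- `Q₀ = c⁻¹ (P 𝔅)` -/
noncomputable def Q0 {k : Type*} [Field k] {p s : ℕ} {F : FormalGroup (MvPowerSeries (Fin (s + 1)) k)}
    {L : Type*} [Field L] [Algebra k L] [Algebra (PowerSeries k) L] {D : Slice k p s F L}
    (E : Sub D) (P : Ideal (MvPowerSeries (Fin (s + 1)) k)) : Ideal (MvPowerSeries (Fin s) k) :=
  (P.map (D.ι : MvPowerSeries (Fin (s + 1)) k →+* MvPowerSeries (Fin s) L)).comap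
    (E.c : MvPowerSeries (Fin s) k →+* MvPowerSeries (Fin s) L)

variable {k : Type*} [Field k] {K L : Type*} [Field K] [Field L] [Algebra k K] [Algebra k L]
    [Algebra (PowerSeries k) K] [IsFractionRing (PowerSeries k) K]
    [Algebra K L] [Algebra (PowerSeries k) L]
    [IsScalarTower k (PowerSeries k) K] [IsScalarTower k K L]
    [IsScalarTower (PowerSeries k) K L] [IsSepClosure K L]
    [IsAlgClosed k] (p : ℕ) [Fact p.Prime] [CharP k p] {s : ℕ}
    {F : FormalGroup (MvPowerSeries (Fin (s + 1)) k)}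

omit [IsAlgClosed k] [Fact p.Prime] [CharP k p] in
private theorem gal_mem {R B : Type*} [CommRing R] [CommRing B] [Algebra k R] [Algebra k B]
    (ι : R →ₐ[k] B) (γ : B ≃ₐ[k] B) (h : ∀ f, γ (ι f) = ι f) (P : Ideal R) {y : B}
    (hy : y ∈ P.map (ι : R →+* B)) : γ y ∈ P.map (ι : R →+* B) := by
  have h1 : (P.map (ι : R →+* B)).map (γ : B →+* B) = P.map (ι : R →+* B) := by
    rw [Ideal.map_map]
    congr 1
    exact RingHom.ext fun f => h f
  rw [← h1]
  exact Ideal.mem_map_of_mem (γ : B →+* B) hy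

include K in
theorem stab_big (hF : IsLT k p (s + 1) F) {D : Slice k p s F L} (E : Sub D)
    (V : Subgroup (Lift k F)) (hV : BigSub V)
    (P : Ideal (MvPowerSeries (Fin (s + 1)) k)) :
    ∃ W : Subgroup (Lift k E.F'), BigSub W ∧ ∀ b ∈ W,
      (Q0 E P).map (b.g : MvPowerSeries (Fin s) k →+* MvPowerSeries (Fin s) k) ≤ Q0 E P := by
  obtain ⟨W, hW⟩ : ∃ W : Subgroup (Lift k E.F'), ∀ b, b ∈ W ↔ ∀ x, b.g x ∈ Q0 E P ↔ x ∈ Q0 E P := by
    refine ⟨{ carrier := {b | ∀ x, b.g x ∈ Q0 E P ↔ x ∈ Q0 E P}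
              mul_mem' := ?_
              one_mem' := fun x => Iff.rfl
              inv_mem' := ?_ }, fun b => Iff.rfl⟩
    · intro a b ha hb x
      exact (ha (b.g x)).trans (hb x)
    · intro a ha x
      have h1 := ha (a.g⁻¹ x)
      have h2 : a.g (a.g⁻¹ x) = x := a.g.apply_symm_apply x
      rw [h2] at h1
      exact h1.symm
  refine ⟨W, ⟨1, le_rfl, fun θ hθ hu => ?_⟩, fun b hb => ?_⟩
  · rw [Sub.special_eq] at hθ
    obtain ⟨b, hb, γ, hγ, hbγ⟩ := exists_lift (K := K) p hF E V hV hθ hu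
    refine ⟨b, (hW b).2 fun x => ?_, ?_⟩
    · have h3 : ∀ y, y ∈ Q0 E P ↔ E.c y ∈
          P.map (D.ι : MvPowerSeries (Fin (s + 1)) k →+* MvPowerSeries (Fin s) L) := fun y => Iff.rfl
      rw [h3, h3, hbγ]
      constructor
      · intro h
        have h4 := gal_mem D.ι γ.symm (fun f => by
          rw [AlgEquiv.symm_apply_eq]
          exact (hγ.fix f).symm) P h
        rwa [AlgEquiv.symm_apply_apply] at h4
      · exact gal_mem D.ι γ hγ.fix P
    · rw [hb]
      exact (PowerSeries.X_subst θ).symm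
  · rw [Ideal.map_le_iff_le_comap]
    intro x hx
    exact ((hW b).1 hb x).2 hx

end Pool.Agent.H61.CA
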