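import Pool.Agent.H13.CA.Defs
import Pool.Agent.H61.CA.Kru

/-!
# CH-ALL, ISTD: the standard ideals, by coefficients

`Istd k m j = (X i, i < j)`: a series lies in it iff its coefficients at the monomials which contain
no `X i`, `i < j`, vanish.  Consequences: closed; contraction along `k → K` and along `io`; prime;
the ideals are pairwise different.
-/

open MvPowerSeries

namespace Pool.Agent.H61.CA

open Pool.Agent.H13.CA

private theorem Istd_sub {k : Type*} [Field k] {m j : ℕ} {f : MvPowerSeries (Fin m) k}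
    (hf : f ∈ Istd k m j) (d : Fin m →₀ ℕ) (hd : ∀ i : Fin m, i.val < j → d i = 0) :
    coeff d f = 0 := by
  unfold Istd at hf
  rw [Ideal.mem_span] at hf
  obtain ⟨I, hI⟩ : ∃ I : Ideal (MvPowerSeries (Fin m) k), ∀ y, y ∈ I ↔
      ∀ d : Fin m →₀ ℕ, (∀ i : Fin m, i.val < j → d i = 0) → coeff d y = 0 := by
    refine ⟨{ carrier := {y | ∀ d : Fin m →₀ ℕ, (∀ i : Fin m, i.val < j → d i = 0) → coeff d y = 0}
              add_mem' := ?_
              zero_mem' := fun d _ => map_zero _
              smul_mem' := ?_ }, fun y => Iff.rfl⟩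
    · intro y z hy hz d hd
      rw [map_add, hy d hd, hz d hd, add_zero]
    · intro c y hy d hd
      rw [smul_eq_mul, coeff_mul]
      refine Finset.sum_eq_zero fun p hp => ?_
      rw [Finset.HasAntidiagonal.mem_antidiagonal] at hp
      have h2 : ∀ i : Fin m, i.val < j → p.2 i = 0 := by
        intro i hi
        have h3 := DFunLike.congr_fun hp i
        rw [Finsupp.add_apply, hd i hi] at h3
        omega
      rw [hy p.2 h2, mul_zero]
  refine (hI f).1 (hf I ?_) d hd
  rintro _ ⟨i, hi, rfl⟩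
  refine (hI _).2 fun d hd => ?_
  exact X_dvd_iff.1 (dvd_refl _) d (hd i hi)

theorem mem_Istd {k : Type*} [Field k] {m j : ℕ} {f : MvPowerSeries (Fin m) k} :
    f ∈ Istd k m j ↔ ∀ d : Fin m →₀ ℕ, (∀ i : Fin m, i.val < j → d i = 0) → coeff d f = 0 := by
  refine ⟨fun h => Istd_sub h, fun h => ?_⟩
  induction j generalizing f with
  | zero =>
    have h1 : f = 0 := by
      ext d
      rw [h d fun i hi => absurd hi (Nat.not_lt_zero _), map_zero]
    rw [h1]
    exact Ideal.zero_mem _
  | succ j ih =>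
    have hle : Istd k m j ≤ Istd k m (j + 1) :=
      Ideal.span_mono fun x ⟨i, hi, hx⟩ => ⟨i, by omega, hx⟩
    by_cases hj : j < m
    · obtain ⟨f1, hf1⟩ : ∃ f1 : MvPowerSeries (Fin m) k, ∀ d, coeff d f1 =
          if d ⟨j, hj⟩ = 0 then 0 else coeff d f :=
        ⟨fun d => if d ⟨j, hj⟩ = 0 then 0 else coeff d f, fun d => rfl⟩
      have h1 : f1 ∈ Istd k m (j + 1) := by
        have h2 : MvPowerSeries.X (⟨j, hj⟩ : Fin m) ∣ f1 := by
          rw [X_dvd_iff]
          intro d hd
          rw [hf1, if_pos hd]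
        obtain ⟨c, hc⟩ := h2
        rw [hc]
        refine Ideal.mul_mem_right _ _ (Ideal.subset_span ⟨⟨j, hj⟩, Nat.lt_succ_self j, rfl⟩)
      have h2 : f - f1 ∈ Istd k m j := by
        refine ih fun d hd => ?_
        rw [map_sub, hf1]
        split_ifs with h3
        · rw [sub_zero]
          refine h d fun i hi => ?_
          rcases Nat.lt_succ_iff_lt_or_eq.1 hi with h4 | h4
          · exact hd i h4
          · rw [← h3]
            exact congrArg d (Fin.ext h4)
        · rw [sub_self]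
      have h3 : f = (f - f1) + f1 := by ring
      rw [h3]
      exact Ideal.add_mem _ (hle h2) h1
    · exact hle (ih fun d hd => h d fun i hi => hd i (by have := i.2; omega))

theorem Istd_mono {k : Type*} [Field k] {m i j : ℕ} (h : i ≤ j) : Istd k m i ≤ Istd k m j :=
  Ideal.span_mono fun _ ⟨l, hl, hx⟩ => ⟨l, by omega, hx⟩

private theorem rho {k : Type*} [Field k] {m : ℕ} (j : ℕ) :
    ∃ ρ : MvPowerSeries (Fin m) k → MvPowerSeries (Fin m) k,
      (∀ f, f ∈ Istd k m j ↔ ρ f = 0) ∧ (∀ f g, ρ (f * g) = ρ f * ρ g) ∧ ρ 1 ≠ 0 := by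
  classical
  obtain ⟨ρ, hρ⟩ : ∃ ρ : MvPowerSeries (Fin m) k → MvPowerSeries (Fin m) k, ∀ f d, coeff d (ρ f) =
      if (∀ i : Fin m, i.val < j → d i = 0) then coeff d f else 0 :=
    ⟨fun f d => if (∀ i : Fin m, i.val < j → d i = 0) then coeff d f else 0, fun f d => rfl⟩
  refine ⟨ρ, fun f => ?_, fun f g => ?_, fun h => ?_⟩
  · rw [mem_Istd]
    constructor
    · intro h
      ext d
      rw [hρ, map_zero]
      split_ifs with h1
      · exact h d h1
      · rfl
    · intro h d hd
      have h1 := hρ f d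
      rw [h, map_zero, if_pos hd] at h1
      exact h1.symm
  · ext d
    rw [hρ, coeff_mul, coeff_mul]
    split_ifs with h1
    · refine Finset.sum_congr rfl fun p hp => ?_
      rw [Finset.HasAntidiagonal.mem_antidiagonal] at hp
      have h2 : ∀ i : Fin m, i.val < j → p.1 i = 0 ∧ p.2 i = 0 := by
        intro i hi
        have h3 := DFunLike.congr_fun hp i
        rw [Finsupp.add_apply, h1 i hi] at h3
        omega
      rw [hρ, hρ, if_pos fun i hi => (h2 i hi).1, if_pos fun i hi => (h2 i hi).2]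
    · symm
      refine Finset.sum_eq_zero fun p hp => ?_
      rw [Finset.HasAntidiagonal.mem_antidiagonal] at hp
      rw [hρ, hρ]
      split_ifs with h2 h3
      · exfalso
        apply h1
        intro i hi
        rw [← hp, Finsupp.add_apply, h2 i hi, h3 i hi]
      · rw [mul_zero]
      · rw [zero_mul]
      · rw [zero_mul]
  · have h1 := hρ 1 0
    rw [h, map_zero, if_pos fun i _ => Finsupp.zero_apply, coeff_zero_one] at h1
    exact zero_ne_one h1

theorem Istd_prime {k : Type*} [Field k] {m j : ℕ} : (Istd k m j).IsPrime := by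
  obtain ⟨ρ, h1, h2, h3⟩ := rho (k := k) (m := m) j
  refine Ideal.isPrime_iff.2 ⟨fun h => h3 ?_, fun {x y} hxy => ?_⟩
  · rw [← h1, h]
    exact Submodule.mem_top
  · rw [h1, h2] at hxy
    rw [h1, h1]
    exact mul_eq_zero.1 hxy

/-- `Istd k m m` is the maximal ideal. -/
theorem mem_Istd_top {k : Type*} [Field k] {m : ℕ} {f : MvPowerSeries (Fin m) k} :
    f ∈ Istd k m m ↔ constantCoeff f = 0 := by
  rw [mem_Istd]
  constructor
  · intro h
    rw [← coeff_zero_eq_constantCoeff_apply]
    exact h 0 fun i _ => Finsupp.zero_apply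
  · intro h d hd
    have h1 : d = 0 := Finsupp.ext fun i => hd i i.2
    rw [h1, coeff_zero_eq_constantCoeff_apply, h]

/-- closedness -/
theorem Istd_closed {k : Type*} [Field k] {m j : ℕ} {f : MvPowerSeries (Fin m) k}
    (h : ∀ s, ∃ g ∈ Istd k m j, H85.CH.Lo s (f - g)) : f ∈ Istd k m j := by
  rw [mem_Istd]
  intro d hd
  obtain ⟨g, hg, hs⟩ := h (d.degree + 1)
  have h1 := hs d (Nat.lt_succ_self _)
  rw [map_sub, mem_Istd.1 hg d hd, sub_zero] at h1
  exact h1

theorem map_Istd {k K : Type*} [Field k] [Field K] [Algebra k K] {m j : ℕ} :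
    (Istd k m j).map (MvPowerSeries.map (σ := Fin m) (algebraMap k K)) = Istd K m j := by
  unfold Istd
  rw [Ideal.map_span]
  congr 1
  ext x
  constructor
  · rintro ⟨_, ⟨i, hi, rfl⟩, rfl⟩
    exact ⟨i, hi, MvPowerSeries.map_X _ _⟩
  · rintro ⟨i, hi, rfl⟩
    exact ⟨_, ⟨i, hi, rfl⟩, MvPowerSeries.map_X _ _⟩

/-- contraction along `k → K` -/
theorem comap_Istd {k K : Type*} [Field k] [Field K] [Algebra k K] {m j : ℕ}
    {f : MvPowerSeries (Fin m) k} :
    MvPowerSeries.map (σ := Fin m) (algebraMap k K) f ∈ Istd K m j ↔ f ∈ Istd k m j := by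
  rw [mem_Istd, mem_Istd]
  refine forall_congr' fun d => imp_congr_right fun _ => ?_
  rw [MvPowerSeries.coeff_map, map_eq_zero_iff _ (algebraMap k K).injective]

private theorem ex_nx {m : ℕ} (d' : Fin (m + 1) →₀ ℕ) :
    ∃ (d : Fin m →₀ ℕ), (∀ i, d i = d' i.castSucc) ∧
      d' = d.mapDomain Fin.castSucc + Finsupp.single (Fin.last m) (d' (Fin.last m)) := by
  refine ⟨Finsupp.equivFunOnFinite.symm fun i => d' i.castSucc, fun i => rfl, ?_⟩
  ext i
  rw [Finsupp.add_apply]
  refine Fin.lastCases ?_ (fun i => ?_) i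
  · rw [Finsupp.mapDomain_of_notMem_range, Finsupp.single_eq_same, zero_add]
    rintro ⟨i, hi⟩
    exact (Fin.castSucc_lt_last i).ne hi
  · rw [Finsupp.mapDomain_apply (Fin.castSucc_injective m),
      Finsupp.single_eq_of_ne (Fin.castSucc_lt_last i).ne, add_zero]
    rfl

private theorem nx_cs {m : ℕ} (d : Fin m →₀ ℕ) (e : ℕ) (i : Fin m) :
    (d.mapDomain Fin.castSucc + Finsupp.single (Fin.last m) e) i.castSucc = d i := by
  rw [Finsupp.add_apply, Finsupp.mapDomain_apply (Fin.castSucc_injective m),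
    Finsupp.single_eq_of_ne (Fin.castSucc_lt_last i).ne, add_zero]

private theorem nx_la {m : ℕ} (d : Fin m →₀ ℕ) (e : ℕ) :
    (d.mapDomain Fin.castSucc + Finsupp.single (Fin.last m) e) (Fin.last m) = e := by
  rw [Finsupp.add_apply, Finsupp.mapDomain_of_notMem_range, Finsupp.single_eq_same, zero_add]
  rintro ⟨i, hi⟩
  exact (Fin.castSucc_lt_last i).ne hi

/-- contraction along `io` -/
theorem io_mem_Istd {k K : Type*} [Field k] [Field K] [Algebra (PowerSeries k) K]
    [FaithfulSMul (PowerSeries k) K] {m j : ℕ} (hj : j ≤ m)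
    {io : MvPowerSeries (Fin (m + 1)) k →+* MvPowerSeries (Fin m) K} (hio : IsIo io)
    {f : MvPowerSeries (Fin (m + 1)) k} : io f ∈ Istd K m j ↔ f ∈ Istd k (m + 1) j := by
  have hinj : Function.Injective (algebraMap (PowerSeries k) K) :=
    FaithfulSMul.algebraMap_injective _ _
  rw [mem_Istd, mem_Istd]
  constructor
  · intro h d' hd'
    obtain ⟨d, hd, he⟩ := ex_nx d'
    have h1 := h d fun i hi => by
      rw [hd]
      exact hd' _ hi
    rw [hio f d, map_eq_zero_iff _ hinj] at h1
    have h2 := congrArg (PowerSeries.coeff (d' (Fin.last m))) h1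
    rw [PowerSeries.coeff_mk, map_zero, ← he] at h2
    exact h2
  · intro h d hd
    rw [hio f d, map_eq_zero_iff _ hinj]
    ext e
    rw [PowerSeries.coeff_mk, map_zero]
    refine h _ fun i hi => ?_
    obtain ⟨i', rfl⟩ : ∃ i' : Fin m, i = i'.castSucc := ⟨⟨i, by omega⟩, rfl⟩
    rw [nx_cs]
    exact hd i' hi

private theorem io_X {k K : Type*} [Field k] [Field K] [Algebra (PowerSeries k) K] {m : ℕ}
    {io : MvPowerSeries (Fin (m + 1)) k →+* MvPowerSeries (Fin m) K} (hio : IsIo io) (i : Fin m) :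
    io (MvPowerSeries.X i.castSucc) = MvPowerSeries.X i := by
  classical
  ext d
  rw [hio, coeff_X]
  by_cases hd : d = Finsupp.single i 1
  · rw [if_pos hd]
    have h1 : (PowerSeries.mk fun e => coeff (d.mapDomain Fin.castSucc + Finsupp.single (Fin.last m) e)
        (MvPowerSeries.X i.castSucc : MvPowerSeries (Fin (m + 1)) k)) = 1 := by
      ext e
      rw [PowerSeries.coeff_mk, coeff_X, PowerSeries.coeff_one]
      refine if_congr ?_ rfl rfl
      rw [hd, Finsupp.mapDomain_single]
      constructor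
      · intro h
        have h2 := DFunLike.congr_fun h (Fin.last m)
        rw [Finsupp.add_apply, Finsupp.single_eq_same, Finsupp.single_eq_of_ne
          (Fin.castSucc_lt_last i).ne', zero_add] at h2
        exact h2
      · rintro rfl
        rw [Finsupp.single_zero, add_zero]
    rw [h1, map_one]
  · rw [if_neg hd]
    have h1 : (PowerSeries.mk fun e => coeff (d.mapDomain Fin.castSucc + Finsupp.single (Fin.last m) e)
        (MvPowerSeries.X i.castSucc : MvPowerSeries (Fin (m + 1)) k)) = 0 := by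
      ext e
      rw [PowerSeries.coeff_mk, coeff_X, map_zero, if_neg]
      intro h
      apply hd
      ext i'
      have h2 := DFunLike.congr_fun h i'.castSucc
      rw [nx_cs] at h2
      rw [h2]
      by_cases hii : i' = i
      · rw [hii, Finsupp.single_eq_same, Finsupp.single_eq_same]
      · rw [Finsupp.single_eq_of_ne, Finsupp.single_eq_of_ne]
        · exact hii
        · exact fun h3 => hii (Fin.castSucc_injective m h3)
    rw [h1, map_zero]

theorem map_io_Istd {k K : Type*} [Field k] [Field K] [Algebra (PowerSeries k) K]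
    [FaithfulSMul (PowerSeries k) K] {m j : ℕ} (hj : j ≤ m)
    {io : MvPowerSeries (Fin (m + 1)) k →+* MvPowerSeries (Fin m) K} (hio : IsIo io) :
    (Istd k (m + 1) j).map io = Istd K m j := by
  unfold Istd
  rw [Ideal.map_span]
  congr 1
  ext x
  constructor
  · rintro ⟨_, ⟨i, hi, rfl⟩, rfl⟩
    obtain ⟨i', rfl⟩ : ∃ i' : Fin m, i = i'.castSucc := ⟨⟨i, by omega⟩, rfl⟩
    exact ⟨i', hi, io_X hio i'⟩
  · rintro ⟨i, hi, rfl⟩
    exact ⟨_, ⟨i.castSucc, hi, rfl⟩, io_X hio i⟩

theorem Istd_zero {k : Type*} [Field k] {m : ℕ} : Istd k m 0 = ⊥ := by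
  rw [eq_bot_iff]
  intro f hf
  rw [Ideal.mem_bot]
  ext d
  rw [mem_Istd.1 hf d fun i hi => absurd hi (Nat.not_lt_zero _), map_zero]

/-- a prime ideal which contains a standard ideal and all but the last variable .. -/
theorem Istd_ne_top {k : Type*} [Field k] {m j : ℕ} : Istd k m j ≠ ⊤ := Istd_prime.ne_top

end Pool.Agent.H61.CA
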