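import Pool.Agent.H13.CA.Com
import Pool.Agent.H61.CA.Std
import Pool.Agent.H49.CA.Minp
import Pool.Agent.H84.CA.C9

/-!
# CORE C9: the radical of a stable ideal is standard

`big_minp` (helper49): minimal primes over a stable ideal are stable under a smaller big subgroup.
`rad_eq`: by `ChaiAt` every minimal prime over `I` is some `Istd k s j`; these form a chain
(`Istd_mono`), two minimal primes are incomparable or equal, so there is exactly one, and the
radical is the intersection of the minimal primes (`Ideal.sInf_minimalPrimes`).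
-/

open MvPowerSeries

namespace Pool.Agent.H61.CA

open Pool.Agent.H13.CA

theorem big_minp {k : Type*} [Field k] {m : ℕ} {F : FormalGroup (MvPowerSeries (Fin m) k)}
    (V : Subgroup (Lift k F)) (hV : BigSub V) (I : Ideal (MvPowerSeries (Fin m) k))
    (hI : ∀ a ∈ V, I.map (a.g : MvPowerSeries (Fin m) k →+* MvPowerSeries (Fin m) k) ≤ I) :
    ∃ W ≤ V, BigSub W ∧ ∀ a ∈ W, ∀ Q ∈ I.minimalPrimes,
      Q.map (a.g : MvPowerSeries (Fin m) k →+* MvPowerSeries (Fin m) k) ≤ Q := by
  exact Pool.Agent.H49.CA.ample_minp V hV I hI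

theorem rad_eq {k : Type*} [Field k] {p m : ℕ} (hC : ChaiAt k p m)
    {F : FormalGroup (MvPowerSeries (Fin m) k)} (hF : IsLT k p m F)
    (V : Subgroup (Lift k F)) (hV : BigSub V) (I : Ideal (MvPowerSeries (Fin m) k))
    (hI : ∀ a ∈ V, I.map (a.g : MvPowerSeries (Fin m) k →+* MvPowerSeries (Fin m) k) ≤ I)
    (htop : I ≠ ⊤) : ∃ j, j ≤ m ∧ I.radical = Istd k m j :=
  Pool.Agent.H84.CA.rad_eq hC hF V hV I hI htop

end Pool.Agent.H61.CA
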