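import Pool.Agent.H61.CA.C1
import Pool.Agent.H61.CA.C8
import Pool.Agent.H61.CA.C9

/-!
# CORE C10: conclusion

PROOF.  `K := FractionRing k⟦X⟧`, `L := SeparableClosure K`; `D` a slice, `E : Sub D`.  `J := P 𝔅`.
`desc` (`c = E.c`, `GSet D V`, `Sub.c_fixed`, `fix_const`): `J = (c⁻¹ J) 𝔅 = Q₀ 𝔅`.  `Q₀ ≠ ⊤` (`P ≤ Istd`, so
`J ≤ Istd L s s`).  `rad_eq`: `rad Q₀ = Istd k s j`, `j ≤ s`.
`P ≤ Istd k (s+1) j`: `J = Q₀ 𝔅 ≤ (Istd k s j) 𝔅 = Istd L s j = (Istd k (s+1) j) 𝔅` and `IsBig.contr` for the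
prime `Istd k (s+1) j ≤ Istd k (s+1) s`.
`Istd k (s+1) j ≤ P`: `X l ^ N ∈ Q₀` for `l < j`, so `ww D l ∈ rad J`, so `Istd L s j = Ij (ww D) j ≤ rad J`;
`X i = ι (X i.castSucc)`, `i < j`: `ι (X i.castSucc ^ N') ∈ J`, `IsBig.contr` for `P`: `∈ P`; `P` is prime.
-/

open MvPowerSeries

namespace Pool.Agent.H61.CA

open Pool.Agent.H13.CA

section

variable {k : Type*} [Field k] {K L : Type*} [Field K] [Field L] [Algebra k K] [Algebra k L]
    [Algebra (PowerSeries k) K] [IsFractionRing (PowerSeries k) K]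
    [Algebra K L] [Algebra (PowerSeries k) L]
    [IsScalarTower k (PowerSeries k) K] [IsScalarTower k K L]
    [IsScalarTower (PowerSeries k) K L] [IsSepClosure K L]
    [IsAlgClosed k] (p : ℕ) [Fact p.Prime] [CharP k p] {s : ℕ}
    {F : FormalGroup (MvPowerSeries (Fin (s + 1)) k)}

private theorem istd_range {R : Type*} [Field R] {m : ℕ} :
    Istd R m m = Ideal.span (Set.range (X : Fin m → MvPowerSeries (Fin m) R)) := by
  unfold Istd
  congr 1
  ext x
  constructor
  · rintro ⟨i, -, rfl⟩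
    exact ⟨i, rfl⟩
  · rintro ⟨i, rfl⟩
    exact ⟨i, i.2, rfl⟩

include K in
theorem desc_P (hF : IsLT k p (s + 1) F) {D : Slice k p s F L} (E : Sub D)
    (V : Subgroup (Lift k F)) (hV : BigSub V)
    (P : Ideal (MvPowerSeries (Fin (s + 1)) k))
    (hst : ∀ a ∈ V, P.map (a.g : MvPowerSeries (Fin (s + 1)) k →+* _) ≤ P) :
    (Q0 E P).map (E.c : MvPowerSeries (Fin s) k →+* MvPowerSeries (Fin s) L) =
      P.map (D.ι : MvPowerSeries (Fin (s + 1)) k →+* MvPowerSeries (Fin s) L) := by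
  have hinj : Function.Injective (algebraMap (PowerSeries k) L) := by
    rw [IsScalarTower.algebraMap_eq (PowerSeries k) K L]
    exact (algebraMap K L).injective.comp (IsFractionRing.injective (PowerSeries k) K)
  have hX : (fun i => E.c (X i)) = ww D := funext fun i => E.c_X i
  refine desc (c := E.c) (fun i => ?_) ?_ (GSet D V) (fun α hα f => E.c_fixed hα f)
    (fun α hα => ?_) (fun x hx => fix_const (K := K) p hF D V hV x hx) _ (fun α hα x hx => ?_)
  · rw [E.cc, MvPowerSeries.constantCoeff_X, map_zero]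
  · rw [hX, ← H86.NF.Ij_last, span_ww hF hinj D le_rfl, istd_range]
  · obtain ⟨a, -, -, ⟨τ, hτ⟩, -⟩ := hα
    exact ⟨τ, hτ⟩
  · obtain ⟨a, ha, hov, -, -⟩ := hα
    have h1 : (P.map (D.ι : MvPowerSeries (Fin (s + 1)) k →+* MvPowerSeries (Fin s) L)).map
        (α : MvPowerSeries (Fin s) L →+* MvPowerSeries (Fin s) L) ≤
        P.map (D.ι : MvPowerSeries (Fin (s + 1)) k →+* MvPowerSeries (Fin s) L) := by
      rw [Ideal.map_map, Ideal.map_le_iff_le_comap]
      intro f hf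
      rw [Ideal.mem_comap]
      have h2 : ((α : MvPowerSeries (Fin s) L →+* MvPowerSeries (Fin s) L).comp
          (D.ι : MvPowerSeries (Fin (s + 1)) k →+* MvPowerSeries (Fin s) L)) f =
          (D.ι : MvPowerSeries (Fin (s + 1)) k →+* MvPowerSeries (Fin s) L) (a.g f) := hov f
      rw [h2]
      exact Ideal.mem_map_of_mem _ (hst a ha (Ideal.mem_map_of_mem _ hf))
    exact h1 (Ideal.mem_map_of_mem (α : MvPowerSeries (Fin s) L →+* MvPowerSeries (Fin s) L) hx)

omit [IsAlgClosed k] [Fact p.Prime] [CharP k p] in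
private theorem map_istd (D : Slice k p s F L) {j : ℕ} (hj : j ≤ s) :
    (Istd k (s + 1) j).map (D.ι : MvPowerSeries (Fin (s + 1)) k →+* MvPowerSeries (Fin s) L) =
      Istd L s j := by
  apply le_antisymm
  · rw [Istd, Ideal.map_span, Ideal.span_le]
    rintro _ ⟨_, ⟨i, hi, rfl⟩, rfl⟩
    obtain ⟨i', rfl⟩ : ∃ i' : Fin s, i = i'.castSucc := ⟨⟨i.val, by omega⟩, rfl⟩
    have h3 : (D.ι : MvPowerSeries (Fin (s + 1)) k →+* MvPowerSeries (Fin s) L) (X i'.castSucc) =
        X i' := D.hι.low i'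
    rw [h3]
    exact Ideal.subset_span ⟨i', hi, rfl⟩
  · rw [Istd, Ideal.span_le]
    rintro _ ⟨i, hi, rfl⟩
    have h3 : (D.ι : MvPowerSeries (Fin (s + 1)) k →+* MvPowerSeries (Fin s) L) (X i.castSucc) =
        X i := D.hι.low i
    rw [SetLike.mem_coe, ← h3]
    exact Ideal.mem_map_of_mem _ (Ideal.subset_span ⟨i.castSucc, hi, rfl⟩)

include K in
theorem core_L (hF : IsLT k p (s + 1) F) (hs : ChaiAt k p s)
    (hinj : Function.Injective (algebraMap (PowerSeries k) L))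
    {D : Slice k p s F L} (E : Sub D)
    (P : Ideal (MvPowerSeries (Fin (s + 1)) k)) (hP : P.IsPrime) (hle : P ≤ Istd k (s + 1) s)
    (V : Subgroup (Lift k F)) (hV : BigSub V)
    (hst : ∀ a ∈ V, P.map (a.g : MvPowerSeries (Fin (s + 1)) k →+* _) ≤ P) :
    ∃ j, j ≤ s + 1 ∧ P = Istd k (s + 1) j := by
  obtain ⟨W, hW, hWst⟩ := stab_big (K := K) p hF E V hV P
  have hdesc := desc_P (K := K) p hF E V hV P hst
  have hJle : P.map (D.ι : MvPowerSeries (Fin (s + 1)) k →+* MvPowerSeries (Fin s) L) ≤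
      Istd L s s := by
    rw [← map_istd p D le_rfl]
    exact Ideal.map_mono hle
  have htop : Q0 E P ≠ ⊤ := by
    intro h
    have h1 : (1 : MvPowerSeries (Fin s) k) ∈ Q0 E P := by
      rw [h]
      exact Submodule.mem_top
    have h2 : (E.c : MvPowerSeries (Fin s) k →+* MvPowerSeries (Fin s) L) 1 ∈
        P.map (D.ι : MvPowerSeries (Fin (s + 1)) k →+* MvPowerSeries (Fin s) L) := h1
    rw [map_one] at h2
    have h3 := mem_Istd_top.1 (hJle h2)
    rw [map_one] at h3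
    exact one_ne_zero h3
  obtain ⟨j, hj, hrad⟩ := rad_eq hs (E.isLT hF hinj) W hW (Q0 E P) hWst htop
  refine ⟨j, Nat.le_succ_of_le hj, le_antisymm ?_ ?_⟩
  · have hPj : (Istd k (s + 1) j).IsPrime := Pool.Agent.H13.CA.Istd_prime k (s + 1) j
    rw [← D.hι.contr (Istd k (s + 1) j) hPj (Istd_mono hj), map_istd p D hj,
      ← Ideal.map_le_iff_le_comap, ← hdesc, ← E.map_Istd hF hinj hj]
    refine Ideal.map_mono ?_
    rw [← hrad]
    exact Ideal.le_radical
  · have hJrad : Istd L s j ≤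
        (P.map (D.ι : MvPowerSeries (Fin (s + 1)) k →+* MvPowerSeries (Fin s) L)).radical := by
      rw [← span_ww hF hinj D hj, H86.NF.Ij, Ideal.span_le]
      rintro _ ⟨l, hl, rfl⟩
      have h1 : (X l : MvPowerSeries (Fin s) k) ∈ (Q0 E P).radical := by
        rw [hrad]
        exact Ideal.subset_span ⟨l, hl, rfl⟩
      obtain ⟨N, hN⟩ := h1
      refine ⟨N, ?_⟩
      have h2 : (E.c : MvPowerSeries (Fin s) k →+* MvPowerSeries (Fin s) L) (X l ^ N) ∈
        P.map (D.ι : MvPowerSeries (Fin (s + 1)) k →+* MvPowerSeries (Fin s) L) := hN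
      rw [map_pow] at h2
      have h3 : (E.c : MvPowerSeries (Fin s) k →+* MvPowerSeries (Fin s) L) (X l) = ww D l :=
        E.c_X l
      rwa [h3] at h2
    rw [Istd, Ideal.span_le]
    rintro _ ⟨i, hi, rfl⟩
    obtain ⟨i', rfl⟩ : ∃ i' : Fin s, i = i'.castSucc := ⟨⟨i.val, by omega⟩, rfl⟩
    have h1 : (X i' : MvPowerSeries (Fin s) L) ∈
        (P.map (D.ι : MvPowerSeries (Fin (s + 1)) k →+* MvPowerSeries (Fin s) L)).radical :=
      hJrad (Ideal.subset_span ⟨i', hi, rfl⟩)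
    obtain ⟨N, hN⟩ := h1
    have h3 : (D.ι : MvPowerSeries (Fin (s + 1)) k →+* MvPowerSeries (Fin s) L) (X i'.castSucc) =
        X i' := D.hι.low i'
    rw [← h3, ← map_pow] at hN
    have h4 : X i'.castSucc ^ N ∈
        (P.map (D.ι : MvPowerSeries (Fin (s + 1)) k →+* MvPowerSeries (Fin s) L)).comap
          (D.ι : MvPowerSeries (Fin (s + 1)) k →+* MvPowerSeries (Fin s) L) := hN
    rw [D.hι.contr P hP hle] at h4
    exact hP.mem_of_pow_mem N h4

end

theorem core' {k : Type*} [Field k] [IsAlgClosed k] (p : ℕ) [Fact p.Prime] [CharP k p]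
    {s : ℕ} {F : FormalGroup (MvPowerSeries (Fin (s + 1)) k)}
    (hF : IsLT k p (s + 1) F) (hs : ChaiAt k p s)
    (P : Ideal (MvPowerSeries (Fin (s + 1)) k)) (hP : P.IsPrime) (hle : P ≤ Istd k (s + 1) s)
    (V : Subgroup (Lift k F)) (hV : BigSub V)
    (hst : ∀ a ∈ V, P.map (a.g : MvPowerSeries (Fin (s + 1)) k →+* _) ≤ P) :
    ∃ j, j ≤ s + 1 ∧ P = Istd k (s + 1) j := by
  let K := FractionRing (PowerSeries k)
  let L := SeparableClosure K
  have hinj : Function.Injective (algebraMap (PowerSeries k) L) := by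
    rw [IsScalarTower.algebraMap_eq (PowerSeries k) K L]
    exact (algebraMap K L).injective.comp (IsFractionRing.injective (PowerSeries k) K)
  have : IsSepClosed L := IsSepClosure.sep_closed K
  have : IsScalarTower k (PowerSeries k) L := by
    refine IsScalarTower.of_algebraMap_eq fun x => ?_
    rw [IsScalarTower.algebraMap_apply k K L, IsScalarTower.algebraMap_apply (PowerSeries k) K L,
      ← IsScalarTower.algebraMap_apply k (PowerSeries k) K]
  obtain ⟨D⟩ := exists_slice (L := L) p hF hinj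
  obtain ⟨E⟩ := exists_sub (K := K) p hF D V hV
  exact core_L (K := K) p hF hs hinj E P hP hle V hV hst

end Pool.Agent.H61.CA
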