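import Pool.Agent.H13.CA.Grp

/-!
# CH-ALL, CONJ: transport of a formal group law along an invertible series, descent to a subring
-/

open PowerSeries

namespace Pool.Agent.H61.CA

open Pool.Agent.H13.CA

variable {R S : Type*} [CommRing R] [CommRing S]

/-! ### linear coefficients -/

private theorem coeff_one_left (H : MvPowerSeries (Fin 2) R) :
    PowerSeries.coeff 1 (MvPowerSeries.subst ![(PowerSeries.X : R⟦X⟧), 0] H : R⟦X⟧) =
      MvPowerSeries.coeff (Finsupp.single 0 1) H := by
  have hs : MvPowerSeries.HasSubst ![(PowerSeries.X : R⟦X⟧), 0] :=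
    hasSubst_pair PowerSeries.HasSubst.X' PowerSeries.HasSubst.zero
  rw [PowerSeries.coeff, MvPowerSeries.coeff_subst hs,
    finsum_eq_single _ (Finsupp.single 0 1)]
  · simp
  · intro d hd
    by_cases hd₁ : d 1 = 0
    · by_cases hd₀ : d 0 = 0
      · simp [hd₀, hd₁]
      simp [hd₁, PowerSeries.coeff_X_pow]
      grind
    simp [hd₁]

private theorem coeff_one_right (H : MvPowerSeries (Fin 2) R) :
    PowerSeries.coeff 1 (MvPowerSeries.subst ![0, (PowerSeries.X : R⟦X⟧)] H : R⟦X⟧) =
      MvPowerSeries.coeff (Finsupp.single 1 1) H := by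
  have hs : MvPowerSeries.HasSubst ![0, (PowerSeries.X : R⟦X⟧)] :=
    hasSubst_pair PowerSeries.HasSubst.zero PowerSeries.HasSubst.X'
  rw [PowerSeries.coeff, MvPowerSeries.coeff_subst hs,
    finsum_eq_single _ (Finsupp.single 1 1)]
  · simp
  · intro d hd
    by_cases hd₁ : d 0 = 0
    · by_cases hd₀ : d 1 = 0
      · simp [hd₀, hd₁]
      simp [hd₁, PowerSeries.coeff_X_pow]
      grind
    simp [hd₁]

/-! ### conjugation -/

/-- `f (F (g x, g y))` -/
private noncomputable def cj (F : FormalGroup R) (f g : R⟦X⟧) : MvPowerSeries (Fin 2) R :=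
  PowerSeries.subst (MvPowerSeries.subst
    ![PowerSeries.subst (MvPowerSeries.X 0 : MvPowerSeries (Fin 2) R) g,
      PowerSeries.subst (MvPowerSeries.X 1 : MvPowerSeries (Fin 2) R) g] F.toPowerSeries) f

private theorem cj_eval (F : FormalGroup R) {f g : R⟦X⟧}
    (hg : constantCoeff g = 0) {σ : Type*} {a b : MvPowerSeries σ R}
    (ha : PowerSeries.HasSubst a) (hb : PowerSeries.HasSubst b) :
    MvPowerSeries.subst ![a, b] (cj F f g) =
      PowerSeries.subst (MvPowerSeries.subst
        ![PowerSeries.subst a g, PowerSeries.subst b g] F.toPowerSeries) f := by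
  have hab := hasSubst_pair ha hb
  have h0 := hs_subst (PowerSeries.HasSubst.X (S := R) (0 : Fin 2)) hg
  have h1 := hs_subst (PowerSeries.HasSubst.X (S := R) (1 : Fin 2)) hg
  unfold cj
  rw [mv_subst_subst (hs_F_subst F h0 h1) hab, mv_subst_pair h0 h1 hab,
    mv_subst_subst (PowerSeries.HasSubst.X 0) hab, mv_subst_subst (PowerSeries.HasSubst.X 1) hab,
    MvPowerSeries.subst_X hab, MvPowerSeries.subst_X hab]
  rfl

private theorem cc_cj (F : FormalGroup R) {f g : R⟦X⟧} (hf : constantCoeff f = 0)
    (hg : constantCoeff g = 0) : MvPowerSeries.constantCoeff (cj F f g) = 0 := by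
  unfold cj
  refine PowerSeries.constantCoeff_subst_eq_zero ?_ f hf
  exact cc_F_subst F (PowerSeries.constantCoeff_subst_eq_zero (MvPowerSeries.constantCoeff_X _) g hg)
    (PowerSeries.constantCoeff_subst_eq_zero (MvPowerSeries.constantCoeff_X _) g hg)

private theorem subst_zero' {σ : Type*} {g : R⟦X⟧} (hg : constantCoeff g = 0) :
    PowerSeries.subst (0 : MvPowerSeries σ R) g = 0 :=
  PowerSeries.subst_zero_of_constantCoeff_zero hg

/-- `f F f⁻¹` -/
theorem exists_conj (F : FormalGroup R) {f : R⟦X⟧} (h0 : constantCoeff f = 0)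
    (h1 : IsUnit (coeff 1 f)) : ∃ G : FormalGroup R, IsHom F G f := by
  have hr := PowerSeries.subst_substInvOfIsUnit_right f h0 h1
  have hl := PowerSeries.subst_substInvOfIsUnit_left f h0 h1
  have hg := PowerSeries.constantCoeff_substInvOfIsUnit f h1
  set g := PowerSeries.substInvOfIsUnit f h1 with hgdef
  have key : ∀ {σ : Type} (a : MvPowerSeries σ R), PowerSeries.HasSubst a →
      PowerSeries.subst (PowerSeries.subst a g) f = a := by
    intro σ a ha
    rw [← PowerSeries.subst_comp_subst_apply (hs_zero hg) ha, hr, PowerSeries.subst_X ha]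
  have key' : ∀ {σ : Type} (a : MvPowerSeries σ R), PowerSeries.HasSubst a →
      PowerSeries.subst (PowerSeries.subst a f) g = a := by
    intro σ a ha
    rw [← PowerSeries.subst_comp_subst_apply (hs_zero h0) ha, hl, PowerSeries.subst_X ha]
  refine ⟨⟨cj F f g, cc_cj F h0 hg, ?_, ?_, ?_⟩, h0, ?_⟩
  · rw [← coeff_one_left, cj_eval F hg PowerSeries.HasSubst.X' PowerSeries.HasSubst.zero,
      subst_zero' hg, FormalGroup.add_zero F (hs_subst PowerSeries.HasSubst.X' hg),
      key _ PowerSeries.HasSubst.X', PowerSeries.coeff_one_X]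
  · rw [← coeff_one_right, cj_eval F hg PowerSeries.HasSubst.zero PowerSeries.HasSubst.X',
      subst_zero' hg, FormalGroup.zero_add F (hs_subst PowerSeries.HasSubst.X' hg),
      key _ PowerSeries.HasSubst.X', PowerSeries.coeff_one_X]
  · have hY : ∀ i : Fin 3, PowerSeries.HasSubst (MvPowerSeries.X i : MvPowerSeries (Fin 3) R) :=
      fun i => PowerSeries.HasSubst.X i
    have hgY : ∀ i : Fin 3, PowerSeries.HasSubst
        (PowerSeries.subst (MvPowerSeries.X i : MvPowerSeries (Fin 3) R) g) :=
      fun i => hs_subst (hY i) hg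
    have hF : ∀ i j : Fin 3, PowerSeries.HasSubst (MvPowerSeries.subst
        ![PowerSeries.subst (MvPowerSeries.X i : MvPowerSeries (Fin 3) R) g,
          PowerSeries.subst (MvPowerSeries.X j : MvPowerSeries (Fin 3) R) g] F.toPowerSeries) :=
      fun i j => hs_F_subst F (hgY i) (hgY j)
    rw [cj_eval F hg (hY 0) (hY 1), cj_eval F hg (hs_subst (hF 0 1) h0) (hY 2),
      cj_eval F hg (hY 1) (hY 2), cj_eval F hg (hY 0) (hs_subst (hF 1 2) h0),
      key' _ (hF 0 1), key' _ (hF 1 2), FormalGroup.assoc' F (hgY 0) (hgY 1) (hgY 2)]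
  · have hX0 := PowerSeries.HasSubst.X (S := R) (0 : Fin 2)
    have hX1 := PowerSeries.HasSubst.X (S := R) (1 : Fin 2)
    change PowerSeries.subst F.toPowerSeries f = MvPowerSeries.subst _ (cj F f g)
    rw [cj_eval F hg (hs_subst hX0 h0) (hs_subst hX1 h0), key' _ hX0, key' _ hX1, pair_X,
      MvPowerSeries.subst_self]
    rfl

private theorem target_eq {F G : FormalGroup R} {f g : R⟦X⟧} (h : IsHom F G f)
    (hg : constantCoeff g = 0) (hr : PowerSeries.subst g f = (X : R⟦X⟧)) {σ : Type}
    {a b : MvPowerSeries σ R} (ha : PowerSeries.HasSubst a) (hb : PowerSeries.HasSubst b) :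
    MvPowerSeries.subst ![a, b] G.toPowerSeries = PowerSeries.subst (MvPowerSeries.subst
      ![PowerSeries.subst a g, PowerSeries.subst b g] F.toPowerSeries) f := by
  have e := h.eval (hs_subst ha hg) (hs_subst hb hg)
  have key : ∀ {c : MvPowerSeries σ R}, PowerSeries.HasSubst c →
      PowerSeries.subst (PowerSeries.subst c g) f = c := by
    intro c hc
    rw [← PowerSeries.subst_comp_subst_apply (hs_zero hg) hc, hr, PowerSeries.subst_X hc]
  rw [key ha, key hb] at e
  exact e.symm

/-- the target of an isomorphism is determined by it -/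
theorem target_unique {F G G' : FormalGroup R} {f : R⟦X⟧} (h1 : IsUnit (coeff 1 f))
    (h : IsHom F G f) (h' : IsHom F G' f) : G = G' := by
  have hr := PowerSeries.subst_substInvOfIsUnit_right f h.1 h1
  have hg := PowerSeries.constantCoeff_substInvOfIsUnit f h1
  have hX0 := PowerSeries.HasSubst.X (S := R) (0 : Fin 2)
  have hX1 := PowerSeries.HasSubst.X (S := R) (1 : Fin 2)
  have e := (target_eq h hg hr hX0 hX1).trans (target_eq h' hg hr hX0 hX1).symm
  rw [pair_X, MvPowerSeries.subst_self] at e
  exact FormalGroup.ext e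

theorem comm_of_isHom {F G : FormalGroup R} {f : R⟦X⟧} (h1 : IsUnit (coeff 1 f))
    (h : IsHom F G f) (hF : F.IsComm) : G.IsComm := by
  have hr := PowerSeries.subst_substInvOfIsUnit_right f h.1 h1
  have hg := PowerSeries.constantCoeff_substInvOfIsUnit f h1
  have hX0 := PowerSeries.HasSubst.X (S := R) (0 : Fin 2)
  have hX1 := PowerSeries.HasSubst.X (S := R) (1 : Fin 2)
  have e := target_eq h hg hr hX0 hX1
  have e' := target_eq h hg hr hX1 hX0
  rw [pair_X, MvPowerSeries.subst_self,
    FormalGroup.comm' F (hs_subst hX0 hg) (hs_subst hX1 hg)] at e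
  exact ⟨e.trans e'.symm⟩

/-! ### change of rings -/

private theorem mvmap_injective {φ : R →+* S} (hφ : Function.Injective φ) {σ : Type*}
    {a b : MvPowerSeries σ R} (h : MvPowerSeries.map φ a = MvPowerSeries.map φ b) : a = b := by
  ext d
  have := congrArg (MvPowerSeries.coeff d) h
  rw [MvPowerSeries.coeff_map, MvPowerSeries.coeff_map] at this
  exact hφ this

/-- descent of a formal group law along an injective ring homomorphism -/
theorem exists_descent (φ : R →+* S) (hφ : Function.Injective φ) (G : FormalGroup S)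
    (hG : ∀ d, MvPowerSeries.coeff d G.toPowerSeries ∈ Set.range φ) :
    ∃ F : FormalGroup R, F.map φ = G := by
  choose T hT using hG
  have hm : MvPowerSeries.map φ (T : MvPowerSeries (Fin 2) R) = G.toPowerSeries := by
    ext d
    rw [MvPowerSeries.coeff_map]
    exact hT d
  have h0 : MvPowerSeries.constantCoeff (T : MvPowerSeries (Fin 2) R) = 0 := by
    apply hφ
    rw [map_zero, ← G.zero_constantCoeff, ← hm, MvPowerSeries.constantCoeff_map]
  refine ⟨⟨T, h0, ?_, ?_, ?_⟩, ?_⟩
  · apply hφ
    rw [map_one, ← G.lin_coeff_X]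
    exact hT _
  · apply hφ
    rw [map_one, ← G.lin_coeff_Y]
    exact hT _
  · have hY : ∀ i : Fin 3, PowerSeries.HasSubst (MvPowerSeries.X i : MvPowerSeries (Fin 3) R) :=
      fun i => PowerSeries.HasSubst.X i
    have hT' : ∀ i j : Fin 3, PowerSeries.HasSubst (MvPowerSeries.subst
        ![(MvPowerSeries.X i : MvPowerSeries (Fin 3) R), MvPowerSeries.X j]
        (T : MvPowerSeries (Fin 2) R)) :=
      fun i j => MvPowerSeries.IsNilpotent_subst (hasSubst_pair (hY i) (hY j))
        (by rw [h0]; exact IsNilpotent.zero)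
    apply mvmap_injective hφ
    rw [map_pair (hT' 0 1) (hY 2), map_pair (hY 0) (hY 1), map_pair (hY 0) (hT' 1 2),
      map_pair (hY 1) (hY 2), hm, MvPowerSeries.map_X, MvPowerSeries.map_X, MvPowerSeries.map_X]
    exact G.assoc
  · exact FormalGroup.ext hm

theorem map_injective (φ : R →+* S) (hφ : Function.Injective φ) {F F' : FormalGroup R}
    (h : F.map φ = F'.map φ) : F = F' :=
  FormalGroup.ext (mvmap_injective hφ (congrArg FormalGroup.toPowerSeries h))

private theorem map_swap (φ : R →+* S) (F : FormalGroup R) :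
    MvPowerSeries.map φ (MvPowerSeries.subst
      ![(MvPowerSeries.X 1 : MvPowerSeries (Fin 2) R), MvPowerSeries.X 0] F.toPowerSeries) =
    MvPowerSeries.subst
      ![(MvPowerSeries.X 1 : MvPowerSeries (Fin 2) S), MvPowerSeries.X 0]
      (F.map φ).toPowerSeries := by
  rw [map_pair (PowerSeries.HasSubst.X 1) (PowerSeries.HasSubst.X 0), MvPowerSeries.map_X,
    MvPowerSeries.map_X]
  rfl

theorem comm_of_map (φ : R →+* S) (hφ : Function.Injective φ) {F : FormalGroup R}
    (h : (F.map φ).IsComm) : F.IsComm :=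
  ⟨mvmap_injective hφ (h.comm.trans (map_swap φ F).symm)⟩

theorem comm_map (φ : R →+* S) {F : FormalGroup R} (h : F.IsComm) : (F.map φ).IsComm :=
  ⟨(congrArg (MvPowerSeries.map φ) h.comm).trans (map_swap φ F)⟩

theorem isHom_of_map (φ : R →+* S) (hφ : Function.Injective φ) {F G : FormalGroup R} {f : R⟦X⟧}
    (h : IsHom (F.map φ) (G.map φ) (PowerSeries.map φ f)) : IsHom F G f := by
  have h0 : constantCoeff f = 0 := by
    apply hφ
    have := h.1
    rw [← PowerSeries.coeff_zero_eq_constantCoeff_apply, PowerSeries.coeff_map,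
      PowerSeries.coeff_zero_eq_constantCoeff_apply] at this
    rw [this, map_zero]
  refine ⟨h0, ?_⟩
  apply mvmap_injective hφ
  have hX0 := PowerSeries.HasSubst.X (S := R) (0 : Fin 2)
  have hX1 := PowerSeries.HasSubst.X (S := R) (1 : Fin 2)
  rw [PowerSeries.map_subst (hs_F F), map_pair (hs_subst hX0 h0) (hs_subst hX1 h0),
    PowerSeries.map_subst hX0, PowerSeries.map_subst hX1, MvPowerSeries.map_X,
    MvPowerSeries.map_X]
  exact h.2

theorem map_map {T : Type*} [CommRing T] (φ : R →+* S) (χ : S →+* T) (F : FormalGroup R) :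
    (F.map φ).map χ = F.map (χ.comp φ) :=
  fmap_map F φ χ

end Pool.Agent.H61.CA
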