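import Pool.Agent.H61.CA.C0
import Pool.Agent.H61.CA.Cnj

/-!
# CORE C1: the slice data exist

PROOF.  `big_proj`, `big` give `π, ι` (the algebra map `k⟦X⟧ → L` is injective: fraction field).
`special (F.map ι) = (F.map π) ⊗ L` (`IsBig.res`) has height `s + 1` and even
`coeff (p ^ (s+1)) = u` (`IsLT.low`, `IsLT.mid` at the last variable, `IsProj.ker`): `laz_form` gives
`Γ` and `β`.  `B₀ := map C β` (constant coefficients), `exists_conj` gives `G₁` with
`IsHom (F.map ι) G₁ B₀`; `special G₁ = Γ ⊗ L` by `IsHom.target_unique`.  `g := mulSer G₁ p`, `g ≡ x ^ q`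
modulo the maximal ideal `I = ker constantCoeff` of `𝔅` (`mulSer_map`); `H86.NF.nf_exists` (with
`IsAdicComplete`, `H84/CA/Ac.lean`: `ac_ker` / `ac_vI`) gives `u ≡ x`, `g'` normal, `u ∘ g = g' ∘ u`; `exists_conj`
for `u`: `G`, `IsHom G₁ G u`, and `mulSer G p = g'` (`IsHom.mulSer`, `u` is right cancellable: it has an
inverse under composition, `IsHom.inv`).  `B := u ∘ B₀ = subst B₀ u`; `special G = special G₁`
because `red u = X` (`target_unique`).
-/

open MvPowerSeries

namespace Pool.Agent.H61.CA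

open Pool.Agent.H13.CA

/-- the special fibre of `F.map π` over `k⟦u⟧` -/
theorem lt_res {k : Type*} [Field k] (p : ℕ) {s : ℕ}
    {F : FormalGroup (MvPowerSeries (Fin (s + 1)) k)} (hF : IsLT k p (s + 1) F)
    {π : MvPowerSeries (Fin (s + 1)) k →ₐ[k] PowerSeries k} (hπ : IsProj k s π) :
    (F.map (π : MvPowerSeries (Fin (s + 1)) k →+* PowerSeries k)).IsComm ∧
    (∀ i, i < p ^ (s + 1) → PowerSeries.coeff i
      (mulSer (F.map (π : MvPowerSeries (Fin (s + 1)) k →+* PowerSeries k)) p) = 0) ∧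
    PowerSeries.coeff (p ^ (s + 1))
      (mulSer (F.map (π : MvPowerSeries (Fin (s + 1)) k →+* PowerSeries k)) p) = PowerSeries.X ∧
    (∀ i, i < p ^ (s + 1 + 1) → (PowerSeries.X : PowerSeries k) ∣ PowerSeries.coeff i
      (mulSer (F.map (π : MvPowerSeries (Fin (s + 1)) k →+* PowerSeries k)) p)) ∧
    IsUnit (PowerSeries.coeff (p ^ (s + 1 + 1))
      (mulSer (F.map (π : MvPowerSeries (Fin (s + 1)) k →+* PowerSeries k)) p)) := by
  refine ⟨IsComm.map' hF.comm _, fun i hi => ?_, ?_, fun i hi => ?_, ?_⟩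
  · rw [mulSer_map, PowerSeries.coeff_map]
    exact (hπ.ker _).mpr (hF.low s (Nat.le_succ s) i hi)
  · rw [mulSer_map, PowerSeries.coeff_map]
    have h1 := (hπ.ker _).mpr (hF.mid (Fin.last s))
    rw [map_sub, hπ.high, sub_eq_zero] at h1
    exact h1
  · rw [mulSer_map, PowerSeries.coeff_map]
    have h1 := hF.low (s + 1) le_rfl i hi
    have h2 : (Istd k (s + 1) (s + 1)).map
        (π : MvPowerSeries (Fin (s + 1)) k →+* PowerSeries k) ≤ Ideal.span {PowerSeries.X} := by
      rw [Istd, Ideal.map_span, Ideal.span_le]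
      rintro _ ⟨_, ⟨j, -, rfl⟩, rfl⟩
      refine Fin.lastCases ?_ (fun j => ?_) j
      · have h3 : (π : MvPowerSeries (Fin (s + 1)) k →+* PowerSeries k) (X (Fin.last s)) =
            PowerSeries.X := hπ.high
        rw [h3]
        exact Ideal.mem_span_singleton_self _
      · have h3 : (π : MvPowerSeries (Fin (s + 1)) k →+* PowerSeries k) (X j.castSucc) = 0 :=
          hπ.low j
        rw [h3]
        exact zero_mem _
    exact Ideal.mem_span_singleton.mp (h2 (Ideal.mem_map_of_mem _ h1))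
  · rw [mulSer_map, PowerSeries.coeff_map]
    exact hF.top.map _

theorem exists_slice {k : Type*} [Field k] [IsAlgClosed k] (p : ℕ) [Fact p.Prime] [CharP k p]
    {s : ℕ} {F : FormalGroup (MvPowerSeries (Fin (s + 1)) k)} (hF : IsLT k p (s + 1) F)
    {L : Type*} [Field L] [IsSepClosed L] [Algebra k L] [Algebra (PowerSeries k) L]
    [IsScalarTower k (PowerSeries k) L]
    (hinj : Function.Injective (algebraMap (PowerSeries k) L)) :
    Nonempty (Slice k p s F L) := by
  obtain ⟨π, hπ⟩ := big_proj k s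
  obtain ⟨ι, hι⟩ := big hπ L hinj
  have hL : CharP L p := charP_of_injective_algebraMap (algebraMap k L).injective p
  obtain ⟨-, h1, h2, -, -⟩ := lt_res p hF hπ
  set G₀ := F.map (ι : MvPowerSeries (Fin (s + 1)) k →+* MvPowerSeries (Fin s) L) with hG₀
  have hG₀c : G₀.IsComm := IsComm.map' hF.comm _
  have hsp : ∀ i, PowerSeries.coeff i (mulSer (special G₀) p) =
      algebraMap (PowerSeries k) L (PowerSeries.coeff i
        (mulSer (F.map (π : MvPowerSeries (Fin (s + 1)) k →+* PowerSeries k)) p)) := by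
    intro i
    rw [← H86.FG.cc_coeff, hG₀, mulSer_map, PowerSeries.coeff_map, mulSer_map,
      PowerSeries.coeff_map]
    exact hι.res _
  have hh : HasHeight p (s + 1) (special G₀) := by
    refine ⟨fun i hi => ?_, ?_⟩
    · rw [hsp, h1 i hi, map_zero]
    · rw [hsp, h2, isUnit_iff_ne_zero]
      intro h3
      exact PowerSeries.X_ne_zero (hinj (h3.trans (map_zero _).symm))
  obtain ⟨Γ, β, hΓ, hΓp, hβ, hβu⟩ := laz_form (k := k) p (Nat.le_add_left 1 s)
    (IsComm.map' hG₀c _ : (special G₀).IsComm) hh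
  set B₀ : PowerSeries (MvPowerSeries (Fin s) L) :=
    PowerSeries.map (C (σ := Fin s) (R := L)) β with hB₀
  have hB₀0 : PowerSeries.constantCoeff B₀ = 0 := map_hs hβ.1 _
  have hB₀u : IsUnit (PowerSeries.coeff 1 B₀) := by
    rw [hB₀, PowerSeries.coeff_map]
    exact hβu.map _
  have hrB₀ : PowerSeries.map (constantCoeff (σ := Fin s) (R := L)) B₀ = β := by
    rw [hB₀, map_map']
    ext i
    rw [PowerSeries.coeff_map, RingHom.comp_apply, constantCoeff_C]
  obtain ⟨G₁, hG₁, hG₁c⟩ := Pool.Agent.H13.CA.exists_conj G₀ hB₀0 hB₀u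
  have hG₁s : special G₁ = Γ.map (algebraMap k L) := by
    have h3 := hG₁.map (constantCoeff (σ := Fin s) (R := L))
    rw [hrB₀] at h3
    exact h3.target_unique hβ hβu
  obtain ⟨G, u, hu, hru, hGc, hGs, hN⟩ := H86.FG.nf_exists hΓ (H86.FG.hasHeight_of_eq hΓp)
    (hG₁c hG₀c) hG₁s
  have huu : IsUnit (PowerSeries.coeff 1 u) := by
    apply H86.FG.unit_of_red
    rw [hru, PowerSeries.coeff_one_X]
    exact isUnit_one
  exact ⟨{
    π := π
    hπ := hπ
    ι := ι
    hι := hι
    Γ := Γ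
    hΓ := hΓ
    hΓp := hΓp
    G := G
    B := PowerSeries.subst B₀ u
    hB := hG₁.comp hu
    hBu := by
      rw [coeff_one_subst hB₀0 hu.1]
      exact hB₀u.mul huu
    hG := hGc
    hsp := hGs
    hN := (H86.FG.nrm_iff' hΓp).mp hN }⟩

end Pool.Agent.H61.CA
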