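import Pool.Agent.H13.CA.NF
import Pool.Agent.H13.CA.Mon
import Pool.Agent.H13.CA.Big
import Pool.Agent.H13.CA.Hens
import Pool.Agent.H13.CA.Desc
import Pool.Agent.H13.CA.Inv
import Pool.Agent.H86.NF.Gen
import Pool.Agent.H61.CA.Std
import Pool.Agent.H61.CA.Coo

/-!
# CH-ALL, chapter CORE: the slice at `I_(n-1)`

`𝔅 = L⟦X_0, .., X_(s-1)⟧`, `L` a separable closure of `k((u))`, `ι : R_n → 𝔅`,
`B : F.map ι → G`, `special G = Γ ⊗ L`, `[p]_Γ = x ^ q`, `q = p ^ (s + 1)`, `[p]_G` normal.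
-/

open MvPowerSeries

namespace Pool.Agent.H61.CA

open Pool.Agent.H13.CA

/-- The slice data. -/
structure Slice (k : Type*) [Field k] (p s : ℕ) (F : FormalGroup (MvPowerSeries (Fin (s + 1)) k))
    (L : Type*) [Field L] [Algebra k L] [Algebra (PowerSeries k) L] where
  /-- the projection -/
  π : MvPowerSeries (Fin (s + 1)) k →ₐ[k] PowerSeries k
  hπ : IsProj k s π
  /-- the inclusion -/
  ι : MvPowerSeries (Fin (s + 1)) k →ₐ[k] MvPowerSeries (Fin s) L
  hι : IsBig k s π L ι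
  /-- the group over `k` with `[p] = x ^ q` -/
  Γ : FormalGroup k
  hΓ : Γ.IsComm
  hΓp : mulSer Γ p = PowerSeries.X ^ p ^ (s + 1)
  /-- the normal form -/
  G : FormalGroup (MvPowerSeries (Fin s) L)
  /-- the isomorphism to the normal form -/
  B : PowerSeries (MvPowerSeries (Fin s) L)
  hB : IsHom (F.map (ι : MvPowerSeries (Fin (s + 1)) k →+* MvPowerSeries (Fin s) L)) G B
  hBu : IsUnit (PowerSeries.coeff 1 B)
  hG : G.IsComm
  hsp : special G = Γ.map (algebraMap k L)
  hN : H86.NF.Nrm (p ^ (s + 1)) (mulSer G p)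

variable {k : Type*} [Field k] {p s : ℕ} {F : FormalGroup (MvPowerSeries (Fin (s + 1)) k)}
  {L : Type*} [Field L] [Algebra k L] [Algebra (PowerSeries k) L]

/-- `α` lies over the automorphism `a.g` of `R_n`. -/
def Over (D : Slice k p s F L) (α : MvPowerSeries (Fin s) L ≃ₐ[k] MvPowerSeries (Fin s) L)
    (a : Lift k F) : Prop := ∀ f, α (D.ι f) = D.ι (a.g f)

/-- `α` induces `τ` on the residue field. -/
def Res (α : MvPowerSeries (Fin s) L ≃ₐ[k] MvPowerSeries (Fin s) L) (τ : L ≃ₐ[k] L) : Prop :=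
  ∀ x, constantCoeff (α x) = τ (constantCoeff x)

/-- `α B ∘ ι f_a : F.map ι → α G`. -/
noncomputable def mm (D : Slice k p s F L)
    (α : MvPowerSeries (Fin s) L ≃ₐ[k] MvPowerSeries (Fin s) L) (a : Lift k F) :
    PowerSeries (MvPowerSeries (Fin s) L) :=
  PowerSeries.subst
    (PowerSeries.map (D.ι : MvPowerSeries (Fin (s + 1)) k →+* MvPowerSeries (Fin s) L) a.f)
    (PowerSeries.map (α : MvPowerSeries (Fin s) L →+* MvPowerSeries (Fin s) L) D.B)

/-- The automorphisms of `𝔅` over elements of `V` which fix the marking `β = red B`. -/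
def GSet (D : Slice k p s F L) (V : Subgroup (Lift k F)) :
    Set (MvPowerSeries (Fin s) L ≃ₐ[k] MvPowerSeries (Fin s) L) :=
  {α | ∃ a ∈ V, Over D α a ∧ (∃ τ, Res α τ) ∧ red (mm D α a) = red D.B}

/-- `γ` fixes `R_n` and changes the marking by the automorphism `θ` of `Γ`. -/
structure IsGal (D : Slice k p s F L)
    (γ : MvPowerSeries (Fin s) L ≃ₐ[k] MvPowerSeries (Fin s) L) (θ : PowerSeries k) : Prop where
  fix : ∀ f, γ (D.ι f) = D.ι f
  res : ∃ τ, Res γ τ
  hom : IsHom D.Γ D.Γ θ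
  unit : IsUnit (PowerSeries.coeff 1 θ)
  red_eq : red (PowerSeries.map (γ : MvPowerSeries (Fin s) L →+* MvPowerSeries (Fin s) L) D.B) =
    PowerSeries.subst (red D.B) (PowerSeries.map (algebraMap k L) θ)

/-- the coordinates `w_j` = coefficient of `x ^ (p ^ (j + 1))` in `[p]_G` -/
noncomputable def ww (D : Slice k p s F L) (j : Fin s) : MvPowerSeries (Fin s) L :=
  PowerSeries.coeff (p ^ (j.val + 1)) (mulSer D.G p)

/-- The family of height `s + 1` over `k⟦X_0, .., X_(s-1)⟧` to which `G` descends. -/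
structure Sub (D : Slice k p s F L) where
  /-- the embedding -/
  c : MvPowerSeries (Fin s) k →ₐ[k] MvPowerSeries (Fin s) L
  /-- the change of coordinates -/
  ψ : MvPowerSeries (Fin s) L ≃ₐ[L] MvPowerSeries (Fin s) L
  hψ : ∀ i, ψ (X i) = ww D i
  hψ0 : ∀ f, constantCoeff (ψ f) = constantCoeff f
  hcψ : ∀ f, c f = ψ (MvPowerSeries.map (algebraMap k L) f)
  /-- the descended family -/
  F' : FormalGroup (MvPowerSeries (Fin s) k)
  hF' : F'.map (c : MvPowerSeries (Fin s) k →+* MvPowerSeries (Fin s) L) = D.G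

end Pool.Agent.H61.CA
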