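import Pool.Agent.H61.CA.C0

/-!
# CORE C2: the elements of `GSet` fix `G`, and `α B ∘ ι f_a = B`

PROOF.  `mm_hom`: `(F.map ι).map α = F.map (α ∘ ι) = F.map (ι ∘ a.g) = (F.map a.g).map ι`; compose
`a.hom.map ι : F.map ι → (F.map a.g).map ι` with `D.hB.map α : (F.map ι).map α → G.map α`.
`gset_aux`: let `D := mm D α a`, `B' : G → F.map ι` the inverse of `B` (`IsHom.inv`), `w := D ∘ B' : G → G.map α`
with `red w = X`.  `mulSer G p` and `mulSer (G.map α) p = map α (mulSer G p)` are both normal
(`Nrm` is preserved by ring homomorphisms) and `≡ x ^ q` modulo `I = ker constantCoeff` (`D.hsp`,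
`D.hΓp`; for `G.map α`: `α` preserves `I`), and `w` conjugates the first to the second
(`IsHom.mulSer`): `H86.NF.nf_unique_aux` gives `w = X` (adic completeness: `H84/CA/Ac.lean`).  So `D = B`, and
`G.map α = G` by `IsHom.target_unique`.
-/

open MvPowerSeries

namespace Pool.Agent.H61.CA

open Pool.Agent.H13.CA

variable {k : Type*} [Field k] {p s : ℕ} {F : FormalGroup (MvPowerSeries (Fin (s + 1)) k)}
  {L : Type*} [Field L] [Algebra k L] [Algebra (PowerSeries k) L]

theorem mm_hom (D : Slice k p s F L)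
    {α : MvPowerSeries (Fin s) L ≃ₐ[k] MvPowerSeries (Fin s) L} {a : Lift k F} (h : Over D α a) :
    IsHom (F.map (D.ι : MvPowerSeries (Fin (s + 1)) k →+* MvPowerSeries (Fin s) L))
      (D.G.map (α : MvPowerSeries (Fin s) L →+* MvPowerSeries (Fin s) L)) (mm D α a) := by
  have h1 := a.hom.map (D.ι : MvPowerSeries (Fin (s + 1)) k →+* MvPowerSeries (Fin s) L)
  have h2 := D.hB.map (α : MvPowerSeries (Fin s) L →+* MvPowerSeries (Fin s) L)
  rw [fmap_map] at h1 h2
  have h3 : (D.ι : MvPowerSeries (Fin (s + 1)) k →+* MvPowerSeries (Fin s) L).comp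
      (a.g : MvPowerSeries (Fin (s + 1)) k →+* MvPowerSeries (Fin (s + 1)) k) =
      (α : MvPowerSeries (Fin s) L →+* MvPowerSeries (Fin s) L).comp
        (D.ι : MvPowerSeries (Fin (s + 1)) k →+* MvPowerSeries (Fin s) L) := by
    refine RingHom.ext fun f => ?_
    exact (h f).symm
  rw [h3] at h1
  exact h1.comp h2

theorem gset_aux [Fact p.Prime] [CharP k p] (D : Slice k p s F L)
    {α : MvPowerSeries (Fin s) L ≃ₐ[k] MvPowerSeries (Fin s) L} {a : Lift k F} (h : Over D α a)
    {τ : L ≃ₐ[k] L} (hτ : Res α τ) (hr : red (mm D α a) = red D.B) :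
    D.G.map (α : MvPowerSeries (Fin s) L →+* MvPowerSeries (Fin s) L) = D.G ∧ mm D α a = D.B := by
  have hcL : CharP L p := charP_of_injective_algebraMap (algebraMap k L).injective p
  have hcB : CharP (MvPowerSeries (Fin s) L) p :=
    charP_of_injective_ringHom (f := (C : L →+* MvPowerSeries (Fin s) L))
      (fun x y hxy => by
        have h1 := congrArg (constantCoeff (σ := Fin s) (R := L)) hxy
        rwa [constantCoeff_C, constantCoeff_C] at h1) p
  have hac := H84.CA.ac_ker (σ := Fin s) (R := L)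
  have hH : IsHausdorff (RingHom.ker (constantCoeff (σ := Fin s) (R := L)))
      (MvPowerSeries (Fin s) L) := hac.toIsHausdorff
  have hm := mm_hom D h
  obtain ⟨B', hB', hl, hr'⟩ := D.hB.inv D.hBu
  have hw := hB'.comp hm
  -- the reduction of `w`
  have hredw : red (PowerSeries.subst B' (mm D α a)) = PowerSeries.X := by
    have e1 : red (PowerSeries.subst B' (mm D α a)) =
        PowerSeries.subst (red B') (red (mm D α a)) := map_subst' (hs_zero hB'.1) _ _
    have e2 : red (PowerSeries.subst B' D.B) =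
        PowerSeries.subst (red B') (red D.B) := map_subst' (hs_zero hB'.1) _ _
    rw [e1, hr, ← e2, hr']
    exact PowerSeries.map_X _
  have hwX : H86.NF.Sm (RingHom.ker (constantCoeff (σ := Fin s) (R := L)))
      (PowerSeries.subst B' (mm D α a)) PowerSeries.X := by
    intro i
    rw [RingHom.mem_ker, map_sub, sub_eq_zero]
    have e1 := congrArg (PowerSeries.coeff i) hredw
    unfold red at e1
    rw [PowerSeries.coeff_map] at e1
    rw [e1, PowerSeries.coeff_X, PowerSeries.coeff_X]
    split_ifs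
    · exact (map_one _).symm
    · exact (map_zero _).symm
  -- the reduction of `[p]_G`
  have hredp : ∀ i, constantCoeff (PowerSeries.coeff i (mulSer D.G p)) =
      PowerSeries.coeff i (PowerSeries.X ^ p ^ (s + 1) : PowerSeries L) := by
    intro i
    have e1 := mulSer_map D.G (constantCoeff (σ := Fin s) (R := L)) p
    have e2 : D.G.map (constantCoeff (σ := Fin s) (R := L)) = D.Γ.map (algebraMap k L) := D.hsp
    rw [e2, mulSer_map, D.hΓp, map_pow, PowerSeries.map_X] at e1
    rw [← PowerSeries.coeff_map, ← e1]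
  have h₁ : H86.NF.Sm (RingHom.ker (constantCoeff (σ := Fin s) (R := L)))
      (mulSer D.G p) (PowerSeries.X ^ p ^ (s + 1)) := by
    intro i
    rw [RingHom.mem_ker, map_sub, sub_eq_zero, hredp, PowerSeries.coeff_X_pow,
      PowerSeries.coeff_X_pow]
    split_ifs
    · exact (map_one _).symm
    · exact (map_zero _).symm
  have h₂ : H86.NF.Sm (RingHom.ker (constantCoeff (σ := Fin s) (R := L)))
      (mulSer (D.G.map (α : MvPowerSeries (Fin s) L →+* MvPowerSeries (Fin s) L)) p)
      (PowerSeries.X ^ p ^ (s + 1)) := by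
    intro i
    rw [RingHom.mem_ker, map_sub, sub_eq_zero, mulSer_map, PowerSeries.coeff_map]
    have e1 : constantCoeff ((α : MvPowerSeries (Fin s) L →+* MvPowerSeries (Fin s) L)
        (PowerSeries.coeff i (mulSer D.G p))) =
        τ (constantCoeff (PowerSeries.coeff i (mulSer D.G p))) := hτ _
    rw [e1, hredp, PowerSeries.coeff_X_pow, PowerSeries.coeff_X_pow]
    split_ifs
    · rw [map_one, map_one]
    · rw [map_zero, map_zero]
  have n₂ : H86.NF.Nrm (p ^ (s + 1))
      (mulSer (D.G.map (α : MvPowerSeries (Fin s) L →+* MvPowerSeries (Fin s) L)) p) := by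
    intro i hi
    rw [mulSer_map, PowerSeries.coeff_map, D.hN i hi]
    split_ifs
    · exact map_one _
    · exact map_zero _
  have hX := H86.NF.nf_unique_aux (I := RingHom.ker (constantCoeff (σ := Fin s) (R := L)))
    (Nat.succ_ne_zero s) rfl (cc_mulSer D.G p) h₁ h₂ D.hN n₂ hw.1 hwX (hw.mulSer p)
  have hDB : mm D α a = D.B := by
    have e1 : PowerSeries.subst D.B (PowerSeries.subst B' (mm D α a)) = mm D α a := by
      rw [subst_subst' hB'.1 D.hB.1, hl]
      exact PowerSeries.X_subst _
    rw [hX, PowerSeries.subst_X (hs_zero D.hB.1)] at e1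
    exact e1.symm
  refine ⟨?_, hDB⟩
  rw [hDB] at hm
  exact hm.target_unique D.hB D.hBu

theorem gset_fix [Fact p.Prime] [CharP k p] (D : Slice k p s F L) {V : Subgroup (Lift k F)}
    {α : MvPowerSeries (Fin s) L ≃ₐ[k] MvPowerSeries (Fin s) L} (h : α ∈ GSet D V) :
    D.G.map (α : MvPowerSeries (Fin s) L →+* MvPowerSeries (Fin s) L) = D.G := by
  obtain ⟨a, -, h1, ⟨τ, h2⟩, h3⟩ := h
  exact (gset_aux D h1 h2 h3).1

theorem gset_ww [Fact p.Prime] [CharP k p] (D : Slice k p s F L) {V : Subgroup (Lift k F)}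
    {α : MvPowerSeries (Fin s) L ≃ₐ[k] MvPowerSeries (Fin s) L} (h : α ∈ GSet D V) (j : Fin s) :
    α (ww D j) = ww D j := by
  have h1 := gset_fix D h
  have h2 := mulSer_map D.G (α : MvPowerSeries (Fin s) L →+* MvPowerSeries (Fin s) L) p
  rw [h1] at h2
  unfold ww
  conv_rhs => rw [h2]
  rw [PowerSeries.coeff_map]
  rfl

end Pool.Agent.H61.CA
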