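import Pool.Agent.H61.CA.C1
import Pool.Agent.H16.CA.C3a

/-!
# CORE C3: existence of automorphisms of `𝔅` over a given lifting, and Galois automorphisms

PROOF.
`res_aut`: `π ∘ a.g` kills `Istd k (s+1) s` (`Istd_stable`), so it factors through `π`
(`IsProj.ker`, `surj`); the same for `a.g⁻¹`.
`ext_sep`: `ḡ` extends to the fraction field `K` (`IsFractionRing` / `IsLocalization.ringEquivOfRingEquiv`)
and then to the separable closure `L` (`IsSepClosure.equiv` for the two `K`-structures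
`algebraMap K L` and `algebraMap K L ∘ ḡ_K`, or `IntermediateField`/`IsSepClosed.lift`).
`exists_gal`: `mon` (`lt_res` of C1 gives its hypotheses for `F.map π`, `β = red D.B` is a homomorphism
`(F.map π) ⊗ L → Γ ⊗ L`) gives `σ : L ≃ₐ[K] L` with `σ β = θ ∘ β`; `hens` with `g = refl`, `τ = σ`.
`exists_over`: `τ₀ := ext_sep` of `res_aut a`; `θ := τ₀ β ∘ f̄_a ∘ β⁻¹ : Γ ⊗ L → Γ ⊗ L` (`f̄_a` = the
reduction of `ι f_a`) is over `k` (`hom_const`); its inverse `θ'` too; `mon` for `θ'`: `σ` with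
`σ β = θ' ∘ β`; `τ := τ₀ ∘ σ` satisfies `τ β ∘ f̄_a = θ' ∘ τ₀ β ∘ f̄_a = θ' ∘ θ ∘ β = β`; `hens` for
`a.g`, `τ`.
-/

open MvPowerSeries

namespace Pool.Agent.H61.CA

open Pool.Agent.H13.CA

theorem res_aut {k : Type*} [Field k] (p : ℕ) [Fact p.Prime] [CharP k p] {s : ℕ}
    {F : FormalGroup (MvPowerSeries (Fin (s + 1)) k)} (hF : IsLT k p (s + 1) F)
    {π : MvPowerSeries (Fin (s + 1)) k →ₐ[k] PowerSeries k} (hπ : IsProj k s π) (a : Lift k F) :
    ∃ g' : PowerSeries k ≃ₐ[k] PowerSeries k, ∀ f, π (a.g f) = g' (π f) :=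
  H16.CA.res_aut p hF hπ a

variable {k : Type*} [Field k] {K L : Type*} [Field K] [Field L] [Algebra k K] [Algebra k L]
    [Algebra (PowerSeries k) K] [IsFractionRing (PowerSeries k) K]
    [Algebra K L] [Algebra (PowerSeries k) L]
    [IsScalarTower k (PowerSeries k) K] [IsScalarTower k K L]
    [IsScalarTower (PowerSeries k) K L] [IsSepClosure K L]

include K in
theorem ext_sep (g' : PowerSeries k ≃ₐ[k] PowerSeries k) :
    ∃ τ : L ≃ₐ[k] L, ∀ f, τ (algebraMap (PowerSeries k) L f) =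
      algebraMap (PowerSeries k) L (g' f) :=
  H16.CA.ext_sep (K := K) g'

variable [IsAlgClosed k] (p : ℕ) [Fact p.Prime] [CharP k p] {s : ℕ}
    {F : FormalGroup (MvPowerSeries (Fin (s + 1)) k)}

omit [Fact p.Prime] [CharP k p] [IsAlgClosed k] in
/-- the marking `β = red B` -/
private theorem slice_beta (D : Slice k p s F L) :
    IsHom ((F.map (D.π : MvPowerSeries (Fin (s + 1)) k →+* PowerSeries k)).map
      (algebraMap (PowerSeries k) L)) (D.Γ.map (algebraMap k L)) (red D.B) ∧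
      IsUnit (PowerSeries.coeff 1 (red D.B)) := by
  constructor
  · have h1 := D.hB.map (constantCoeff (σ := Fin s) (R := L))
    have h2 : (F.map (D.ι : MvPowerSeries (Fin (s + 1)) k →+* MvPowerSeries (Fin s) L)).map
        (constantCoeff (σ := Fin s) (R := L)) =
        (F.map (D.π : MvPowerSeries (Fin (s + 1)) k →+* PowerSeries k)).map
          (algebraMap (PowerSeries k) L) := by
      rw [map_map, map_map]
      congr 1
      ext f
      exact D.hι.res f
    have h3 : D.G.map (constantCoeff (σ := Fin s) (R := L)) = D.Γ.map (algebraMap k L) := D.hsp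
    rw [h2, h3] at h1
    exact h1
  · have h1 := D.hBu.map (constantCoeff (σ := Fin s) (R := L))
    rw [red, PowerSeries.coeff_map]
    exact h1

omit [Fact p.Prime] [CharP k p] [IsAlgClosed k] [Algebra (PowerSeries k) L] in
private theorem red_map {α : MvPowerSeries (Fin s) L ≃ₐ[k] MvPowerSeries (Fin s) L} {τ : L ≃ₐ[k] L}
    (h : ∀ x, constantCoeff (α x) = τ (constantCoeff x)) (B : PowerSeries (MvPowerSeries (Fin s) L)) :
    red (PowerSeries.map (α : MvPowerSeries (Fin s) L →+* MvPowerSeries (Fin s) L) B) =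
      PowerSeries.map (τ : L →+* L) (red B) := by
  ext n
  simp only [red, PowerSeries.coeff_map]
  exact h _

include K in
theorem exists_gal (hF : IsLT k p (s + 1) F) (D : Slice k p s F L) {θ : PowerSeries k}
    (hθ : IsHom D.Γ D.Γ θ) (hu : IsUnit (PowerSeries.coeff 1 θ)) : ∃ γ, IsGal D γ θ := by
  obtain ⟨h1, h2, h3, h4, h5⟩ := lt_res p hF D.hπ
  obtain ⟨hβ, hβu⟩ := slice_beta p D
  obtain ⟨σ, hσ⟩ := mon (K := K) p (Nat.succ_pos s) h1 h2 h3 h4 h5 D.hΓ D.hΓp hβ hβu hθ hu
  have hsep : Algebra.IsSeparable K L := IsSepClosure.separable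
  have hg : (Istd k (s + 1) s).map
      ((AlgEquiv.refl : MvPowerSeries (Fin (s + 1)) k ≃ₐ[k] MvPowerSeries (Fin (s + 1)) k) :
        MvPowerSeries (Fin (s + 1)) k →+* _) = Istd k (s + 1) s := by
    exact Ideal.map_id _
  obtain ⟨γ, hγ, hγ'⟩ := hens (K := K) D.hπ D.hι AlgEquiv.refl hg (σ.restrictScalars k) (by
    intro f
    show σ (algebraMap (PowerSeries k) L (D.π f)) = algebraMap (PowerSeries k) L (D.π f)
    rw [IsScalarTower.algebraMap_apply (PowerSeries k) K L]
    exact σ.commutes _)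
  exact ⟨γ, hγ, ⟨_, hγ'⟩, hθ, hu, (red_map hγ' D.B).trans hσ⟩

include K in
theorem exists_over (hF : IsLT k p (s + 1) F) (D : Slice k p s F L) (a : Lift k F) :
    ∃ α, Over D α a ∧ (∃ τ, Res α τ) ∧ red (mm D α a) = red D.B := by
  obtain ⟨h1, h2, h3, h4, h5⟩ := lt_res p hF D.hπ
  obtain ⟨hβ, hβu⟩ := slice_beta p D
  obtain ⟨g', hg'⟩ := res_aut p hF D.hπ a
  obtain ⟨τ₀, hτ₀⟩ := ext_sep (K := K) (L := L) g'
  have hsep : Algebra.IsSeparable K L := IsSepClosure.separable
  -- the reduction of `ι f_a`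
  obtain ⟨fb, hfb⟩ : ∃ fb : PowerSeries L, fb = red (PowerSeries.map
      (D.ι : MvPowerSeries (Fin (s + 1)) k →+* MvPowerSeries (Fin s) L) a.f) := ⟨_, rfl⟩
  have hfb0 : PowerSeries.constantCoeff fb = 0 := by
    rw [hfb]
    exact map_hs (map_hs a.hom.1 _) _
  have hfbh : IsHom ((F.map (D.π : MvPowerSeries (Fin (s + 1)) k →+* PowerSeries k)).map
      (algebraMap (PowerSeries k) L)) (((F.map (D.π : MvPowerSeries (Fin (s + 1)) k →+*
        PowerSeries k)).map (algebraMap (PowerSeries k) L)).map (τ₀ : L →+* L)) fb := by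
    have e1 := (a.hom.map (D.ι : MvPowerSeries (Fin (s + 1)) k →+* MvPowerSeries (Fin s) L)).map
      (constantCoeff (σ := Fin s) (R := L))
    have e2 : (F.map (D.ι : MvPowerSeries (Fin (s + 1)) k →+* MvPowerSeries (Fin s) L)).map
        (constantCoeff (σ := Fin s) (R := L)) =
        (F.map (D.π : MvPowerSeries (Fin (s + 1)) k →+* PowerSeries k)).map
          (algebraMap (PowerSeries k) L) := by
      rw [map_map, map_map]
      congr 1
      ext f
      exact D.hι.res f
    have e3 : ((F.map (a.g : MvPowerSeries (Fin (s + 1)) k →+* MvPowerSeries (Fin (s + 1)) k)).map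
        (D.ι : MvPowerSeries (Fin (s + 1)) k →+* MvPowerSeries (Fin s) L)).map
        (constantCoeff (σ := Fin s) (R := L)) =
        ((F.map (D.π : MvPowerSeries (Fin (s + 1)) k →+* PowerSeries k)).map
          (algebraMap (PowerSeries k) L)).map (τ₀ : L →+* L) := by
      rw [map_map, map_map, map_map, map_map]
      congr 1
      ext f
      show constantCoeff (D.ι (a.g f)) = τ₀ (algebraMap (PowerSeries k) L (D.π f))
      rw [D.hι.res, hg', hτ₀]
    rw [e2, e3] at e1
    rw [hfb]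
    exact e1
  have hτβ : IsHom (((F.map (D.π : MvPowerSeries (Fin (s + 1)) k →+* PowerSeries k)).map
      (algebraMap (PowerSeries k) L)).map (τ₀ : L →+* L)) (D.Γ.map (algebraMap k L))
      (PowerSeries.map (τ₀ : L →+* L) (red D.B)) := by
    have e1 := hβ.map (τ₀ : L →+* L)
    have e2 : (D.Γ.map (algebraMap k L)).map (τ₀ : L →+* L) = D.Γ.map (algebraMap k L) := by
      rw [map_map]
      congr 1
      ext x
      exact τ₀.commutes x
    rw [e2] at e1
    exact e1
  obtain ⟨β', hβ', hβ'u, hl, hr⟩ := hβ.inv' hβu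
  have hθt := (hβ'.comp (hfbh.comp hτβ))
  have hcl : CharP L p := charP_of_injective_algebraMap (algebraMap k L).injective p
  obtain ⟨θ₀, hθ₀, hθ₀e, -⟩ := hom_const p (Nat.succ_pos s) D.hΓp D.hΓp hθt
  have hfbu : IsUnit (PowerSeries.coeff 1 fb) := by
    rw [hfb, red, PowerSeries.coeff_map, PowerSeries.coeff_map]
    exact (a.isUnit.map _).map _
  have hτβu : IsUnit (PowerSeries.coeff 1 (PowerSeries.map (τ₀ : L →+* L) (red D.B))) := by
    rw [PowerSeries.coeff_map]
    exact hβu.map _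
  have hu₀ : IsUnit (PowerSeries.coeff 1 θ₀) := by
    have e1 : IsUnit (PowerSeries.coeff 1 (PowerSeries.map (algebraMap k L) θ₀)) := by
      rw [hθ₀e, coeff_one_subst hβ'.1 (cc_subst hfb0 hτβ.1), coeff_one_subst hfb0 hτβ.1]
      exact hβ'u.mul (hfbu.mul hτβu)
    rw [PowerSeries.coeff_map, isUnit_iff_ne_zero] at e1
    rw [isUnit_iff_ne_zero]
    intro e2
    rw [e2, map_zero] at e1
    exact e1 rfl
  obtain ⟨θ', hθ', hθ'u, hl', hr'⟩ := hθ₀.inv' hu₀
  obtain ⟨σ, hσ⟩ := mon (K := K) p (Nat.succ_pos s) h1 h2 h3 h4 h5 D.hΓ D.hΓp hβ hβu hθ' hθ'u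
  obtain ⟨α, hα, hα'⟩ := hens (K := K) D.hπ D.hι a.g (Istd_stable p hF a s)
    ((σ.restrictScalars k).trans τ₀) (by
      intro f
      show τ₀ (σ (algebraMap (PowerSeries k) L (D.π f))) = algebraMap (PowerSeries k) L (D.π (a.g f))
      rw [hg', ← hτ₀]
      congr 1
      rw [IsScalarTower.algebraMap_apply (PowerSeries k) K L]
      exact σ.commutes _)
  refine ⟨α, hα, ⟨_, hα'⟩, ?_⟩
  have k1 : red (PowerSeries.map (α : MvPowerSeries (Fin s) L →+* MvPowerSeries (Fin s) L) D.B) =
      PowerSeries.subst (PowerSeries.map (τ₀ : L →+* L) (red D.B))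
        (PowerSeries.map (algebraMap k L) θ') := by
    rw [red_map hα' D.B]
    have e1 : PowerSeries.map ((((σ.restrictScalars k).trans τ₀ : L ≃ₐ[k] L)) : L →+* L) (red D.B) =
        PowerSeries.map (τ₀ : L →+* L) (PowerSeries.map (σ : L →+* L) (red D.B)) := by
      rw [map_map']
      rfl
    have e2 : PowerSeries.map (τ₀ : L →+* L) (PowerSeries.map (algebraMap k L) θ') =
        PowerSeries.map (algebraMap k L) θ' := by
      ext n
      simp only [PowerSeries.coeff_map]
      exact τ₀.commutes _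
    rw [e1, hσ, map_subst' (hs_zero hβ.1), e2]
  have k2 : PowerSeries.subst fb (PowerSeries.map (τ₀ : L →+* L) (red D.B)) =
      PowerSeries.subst (red D.B) (PowerSeries.map (algebraMap k L) θ₀) := by
    rw [hθ₀e, subst_subst' hβ'.1 hβ.1, hl, PowerSeries.X_subst]
  have k3 : PowerSeries.subst (PowerSeries.map (algebraMap k L) θ₀)
      (PowerSeries.map (algebraMap k L) θ') = (PowerSeries.X : PowerSeries L) := by
    rw [← map_subst' (hs_zero hθ₀.1), hl', map_X']
  have k0 : PowerSeries.constantCoeff (PowerSeries.map (algebraMap k L) θ₀) = 0 := map_hs hθ₀.1 _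
  have k4 : red (mm D α a) = PowerSeries.subst fb (red (PowerSeries.map
      (α : MvPowerSeries (Fin s) L →+* MvPowerSeries (Fin s) L) D.B)) := by
    rw [hfb, mm]
    exact map_subst' (hs_zero (map_hs a.hom.1 _)) _ _
  rw [k4, k1, subst_subst' hτβ.1 hfb0, k2, ← subst_subst' k0 hβ.1, k3,
    PowerSeries.subst_X (hs_zero hβ.1)]

end Pool.Agent.H61.CA
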