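import Pool.Agent.H61.CA.C3

/-!
# CORE C4: the common fixed field of `GSet D V` on the residue field `L` is `k`

PROOF.  Let `x ∈ L` be fixed by all `τ` (`α ∈ GSet D V`, `Res α τ`).  `f ∈ K[T]` the minimal polynomial
of `x` over `K` (`x` is algebraic over `K`).  For `a ∈ V` take `α ∈ GSet D V` over `a` (`exists_over`) and its
`τ`; `τ` maps the image of `k⟦u⟧` to itself by `τ (π f) = π (a.g f)` (`IsBig.res`), hence the image of `K` to itself;
`τ f` has the root `τ x = x` and is monic of the same degree, so `τ f = f`: each coefficient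
`c = π x' / π y'` of `f` satisfies `π (a.g x') π y' = π x' π (a.g y')` for all `a ∈ V`, so `c ∈ k`
(`inv_const`).  So `x` is algebraic over the algebraically closed field `k`.
-/

open MvPowerSeries

namespace Pool.Agent.H61.CA

open Pool.Agent.H13.CA

variable {k : Type*} [Field k] {K L : Type*} [Field K] [Field L] [Algebra k K] [Algebra k L]
    [Algebra (PowerSeries k) K] [IsFractionRing (PowerSeries k) K]
    [Algebra K L] [Algebra (PowerSeries k) L]
    [IsScalarTower k (PowerSeries k) K] [IsScalarTower k K L]
    [IsScalarTower (PowerSeries k) K L] [IsSepClosure K L]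
    [IsAlgClosed k] (p : ℕ) [Fact p.Prime] [CharP k p] {s : ℕ}
    {F : FormalGroup (MvPowerSeries (Fin (s + 1)) k)}

/-- an automorphism of `L` which fixes `x` and preserves `K` fixes the minimal polynomial of `x` -/
private theorem fc_coeff (τ : L →+* L) (hτ : ∀ c : K, ∃ c' : K, τ (algebraMap K L c) = algebraMap K L c')
    {x : L} (hx : τ x = x) (i : ℕ) :
    τ (algebraMap K L ((minpoly K x).coeff i)) = algebraMap K L ((minpoly K x).coeff i) := by
  have hint : IsIntegral K x := (IsSepClosure.separable (k := K) (K := L)).isIntegral K x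
  have hm := minpoly.monic hint
  set f : Polynomial L := (minpoly K x).map (algebraMap K L) with hf
  have hfm : f.Monic := hm.map _
  have hl : f.map τ ∈ Polynomial.lifts (algebraMap K L) := by
    rw [Polynomial.lifts_iff_coeff_lifts]
    intro n
    rw [Polynomial.coeff_map, hf, Polynomial.coeff_map]
    obtain ⟨c', hc'⟩ := hτ ((minpoly K x).coeff n)
    exact ⟨c', hc'.symm⟩
  obtain ⟨g, hg, hgd, hgm⟩ := Polynomial.lifts_and_natDegree_eq_and_monic hl (hfm.map τ)
  have hroot : Polynomial.aeval x g = 0 := by
    rw [Polynomial.aeval_def, ← Polynomial.eval_map, hg]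
    have h1 : Polynomial.eval x f = 0 := by
      rw [hf, Polynomial.eval_map, ← Polynomial.aeval_def]
      exact minpoly.aeval K x
    have h2 : Polynomial.eval (τ x) (f.map τ) = τ (Polynomial.eval x f) := by
      rw [Polynomial.eval_map, Polynomial.eval₂_hom]
    rw [hx, h1, map_zero] at h2
    exact h2
  have hdvd := minpoly.dvd K x hroot
  have hdeg : g.natDegree ≤ (minpoly K x).natDegree := by
    rw [hgd, hfm.natDegree_map, hf, hm.natDegree_map]
  have hgf : g = minpoly K x :=
    Polynomial.eq_of_monic_of_dvd_of_natDegree_le hm hgm hdvd hdeg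
  have h3 := congrArg (fun q : Polynomial L => q.coeff i) hg
  simp only [Polynomial.coeff_map, hgf, hf] at h3
  exact h3.symm

include K in
theorem fix_const (hF : IsLT k p (s + 1) F) (D : Slice k p s F L) (V : Subgroup (Lift k F))
    (hV : BigSub V) (x : L) (hx : ∀ α ∈ GSet D V, constantCoeff (α (C x)) = x) :
    ∃ a : k, algebraMap k L a = x := by
  have hinj : Function.Injective (algebraMap (PowerSeries k) L) := by
    rw [IsScalarTower.algebraMap_eq (PowerSeries k) K L]
    exact (algebraMap K L).injective.comp (IsFractionRing.injective (PowerSeries k) K)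
  have hkk : ∀ a : k, algebraMap (PowerSeries k) L (algebraMap k (PowerSeries k) a) =
      algebraMap k L a := by
    intro a
    rw [IsScalarTower.algebraMap_apply k K L, IsScalarTower.algebraMap_apply k (PowerSeries k) K,
      ← IsScalarTower.algebraMap_apply (PowerSeries k) K L]
  have hτ : ∀ a ∈ V, ∃ τ : L ≃ₐ[k] L, τ x = x ∧ ∀ f,
      τ (algebraMap (PowerSeries k) L (D.π f)) = algebraMap (PowerSeries k) L (D.π (a.g f)) := by
    intro a ha
    obtain ⟨α, h1, ⟨τ, h2⟩, h3⟩ := exists_over (K := K) p hF D a
    refine ⟨τ, ?_, fun f => ?_⟩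
    · have h4 := hx α ⟨a, ha, h1, ⟨τ, h2⟩, h3⟩
      rwa [h2, constantCoeff_C] at h4
    · rw [← D.hι.res, ← D.hι.res, ← h1, h2]
  have hfrac : ∀ c : K, ∃ y z : MvPowerSeries (Fin (s + 1)) k, D.π z ≠ 0 ∧
      algebraMap K L c * algebraMap (PowerSeries k) L (D.π z) =
        algebraMap (PowerSeries k) L (D.π y) := by
    intro c
    obtain ⟨u, v, hv, huv⟩ := IsFractionRing.div_surjective (A := PowerSeries k) c
    obtain ⟨y, hy⟩ := D.hπ.surj u
    obtain ⟨z, hz⟩ := D.hπ.surj v
    have hv0 : v ≠ 0 := nonZeroDivisors.ne_zero hv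
    refine ⟨y, z, by rwa [hz], ?_⟩
    have hv1 : algebraMap (PowerSeries k) K v ≠ 0 := by
      intro h
      exact hv0 (IsFractionRing.injective (PowerSeries k) K (h.trans (map_zero _).symm))
    have h1 : c * algebraMap (PowerSeries k) K v = algebraMap (PowerSeries k) K u := by
      rw [← huv, div_mul_cancel₀ _ hv1]
    have h2 := congrArg (algebraMap K L) h1
    rw [map_mul, ← IsScalarTower.algebraMap_apply, ← IsScalarTower.algebraMap_apply] at h2
    rw [hy, hz]
    exact h2
  have hint : IsIntegral K x := (IsSepClosure.separable (k := K) (K := L)).isIntegral K x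
  have hk : ∀ i, ∃ c : k, algebraMap k K c = (minpoly K x).coeff i := by
    intro i
    obtain ⟨y, z, hz, hyz⟩ := hfrac ((minpoly K x).coeff i)
    obtain ⟨c, hc⟩ := inv_const p hF D.hπ V hV y z hz (by
      intro a ha
      obtain ⟨τ, hτx, hτf⟩ := hτ a ha
      have hK : ∀ c : K, ∃ c' : K, (τ : L →+* L) (algebraMap K L c) = algebraMap K L c' := by
        intro c
        obtain ⟨y', z', hz', hyz'⟩ := hfrac c
        have h1 := congrArg τ hyz'
        rw [map_mul, hτf, hτf] at h1
        have h2 : algebraMap (PowerSeries k) L (D.π (a.g z')) ≠ 0 := by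
          rw [← hτf]
          intro h3
          apply hz'
          apply hinj
          rw [map_zero]
          exact τ.injective (h3.trans (map_zero τ).symm)
        refine ⟨algebraMap (PowerSeries k) K (D.π (a.g y')) / algebraMap (PowerSeries k) K (D.π (a.g z')), ?_⟩
        rw [map_div₀, ← IsScalarTower.algebraMap_apply, ← IsScalarTower.algebraMap_apply, ← h1,
          mul_div_cancel_right₀ _ h2]
        rfl
      have h4 := fc_coeff (K := K) (τ : L →+* L) hK hτx i
      have h5 := congrArg τ hyz
      rw [map_mul, hτf, hτf] at h5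
      have h6 : τ (algebraMap K L ((minpoly K x).coeff i)) =
          algebraMap K L ((minpoly K x).coeff i) := h4
      rw [h6] at h5
      apply hinj
      rw [map_mul, map_mul, ← h5, ← hyz]
      ring)
    refine ⟨c, ?_⟩
    apply (algebraMap K L).injective
    rw [← IsScalarTower.algebraMap_apply]
    have h7 : algebraMap (PowerSeries k) L (D.π z) ≠ 0 := by
      intro h
      exact hz (hinj (h.trans (map_zero _).symm))
    apply mul_right_cancel₀ h7
    rw [hyz, hc, Algebra.smul_def, map_mul, hkk]
  have hmap : ∃ f₀ : Polynomial k, f₀.map (algebraMap k K) = minpoly K x := by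
    have h1 : minpoly K x ∈ Polynomial.lifts (algebraMap k K) := by
      rw [Polynomial.lifts_iff_coeff_lifts]
      exact hk
    obtain ⟨f₀, h2⟩ := (Polynomial.lifts_iff_set_range _).1 h1
    exact ⟨f₀, h2⟩
  obtain ⟨f₀, hf₀⟩ := hmap
  have hkx : IsIntegral k x := by
    rw [← isAlgebraic_iff_isIntegral]
    refine ⟨f₀, ?_, ?_⟩
    · intro h
      rw [h, Polynomial.map_zero] at hf₀
      exact minpoly.ne_zero hint hf₀.symm
    · have h1 := minpoly.aeval K x
      rwa [← hf₀, Polynomial.aeval_map_algebraMap] at h1
  have hdeg := IsAlgClosed.degree_eq_one_of_irreducible k (minpoly.irreducible hkx)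
  exact minpoly.mem_range_of_degree_eq_one k x hdeg

end Pool.Agent.H61.CA
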