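import Pool.Agent.H61.CA.C2
import Pool.Agent.H25.CA.C5

/-!
# CORE C5: Galois automorphisms normalise `GSet`

PROOF.  `γ` with `γ ι = ι`, `red (γ B) = θ ∘ β` (`β = red B`), residue automorphism `σ`.
`symm`: apply `σ⁻¹` to `σ β = θ ∘ β` (`σ β = red (map γ B)` by `Res`): `β = θ ∘ σ⁻¹ β`, so `σ⁻¹ β = θ' ∘ β`,
`θ'` the inverse of `θ` (`IsHom.inv`; series over `k` are fixed by `σ`).
`conj_mem`: `α ∈ GSet D V` over `a`, residue `τ`, `τ β ∘ f̄ = β` (`f̄` = reduction of `ι f_a`, it is fixed by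
`σ` because `γ` fixes `ι f_a`).  `γ⁻¹ α γ` lies over `a`, has residue `σ⁻¹ τ σ`, and
`(σ⁻¹ τ σ) β ∘ f̄ = σ⁻¹ (τ (θ ∘ β) ∘ f̄) = σ⁻¹ (θ ∘ τ β ∘ f̄) = σ⁻¹ (θ ∘ β) = σ⁻¹ σ β = β`.
-/

open MvPowerSeries

namespace Pool.Agent.H61.CA

open Pool.Agent.H13.CA

variable {k : Type*} [Field k] {p s : ℕ} {F : FormalGroup (MvPowerSeries (Fin (s + 1)) k)}
  {L : Type*} [Field L] [Algebra k L] [Algebra (PowerSeries k) L]

theorem IsGal.symm {D : Slice k p s F L}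
    {γ : MvPowerSeries (Fin s) L ≃ₐ[k] MvPowerSeries (Fin s) L} {θ : PowerSeries k}
    (h : IsGal D γ θ) : ∃ θ', IsGal D γ.symm θ' :=
  H25.CA.IsGal.symm h

theorem IsGal.conj_mem {D : Slice k p s F L}
    {γ : MvPowerSeries (Fin s) L ≃ₐ[k] MvPowerSeries (Fin s) L} {θ : PowerSeries k}
    (h : IsGal D γ θ) {V : Subgroup (Lift k F)}
    {α : MvPowerSeries (Fin s) L ≃ₐ[k] MvPowerSeries (Fin s) L} (hα : α ∈ GSet D V) :
    (γ.trans α).trans γ.symm ∈ GSet D V :=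
  H25.CA.IsGal.conj_mem h hα

end Pool.Agent.H61.CA
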