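import Pool.Agent.H61.CA.C2
import Pool.Agent.H61.CA.C4
import Pool.Agent.H61.CA.Cnj
import Pool.Agent.H1.CA.C6a

/-!
# CORE C6: coordinates of the slice, descent of `G` to `k⟦X_0, .., X_(s-1)⟧`

PROOF.
`ht_slice`: `H86.NF.HT p (fun j => X j) (mulSer (F.map ι) p)` over `𝔅` from `IsLT` (`low` for `j < s`, `mid`,
`low` for `j = s`, and `coeff (p ^ (s+1)) = X (last) mod (..)`, `ι (X (last)) = C u + ..`: its constant
coefficient is `u ≠ 0`, a unit).
`span_ww`: `HT.conj` along `D.B` (`IsHom.mulSer`), `HT.self`, `HT.span_eq`; `Ij (fun j => X j) j = Istd L s j`.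
`exists_sub`: `coord` (Coo.lean) for `w = ww D` (`span_ww` at `j = s`) gives `ψ`; `c := ψ ∘ map (algebraMap k L)`;
every coefficient of `G` is fixed by all `α ∈ GSet D V` (`gset_fix`), `α (c f) = c f` (`gset_ww`,
`algHom_ext_mv`), so it lies in the range of `c` (`desc_inv`, `fix_const`); `exists_descent`.
The rest: `c = ψ ∘ map`, `ψ (Istd L s j) = Ij (ww D) j = Istd L s j`, `comap_Istd`.
`isLT`: `coeff i [p]_(F')` for `i < p ^ (j+1)`, `j ≤ s`: its image under `c` is in `Ij (ww D) j = Istd L s j`
(HT), so it is in `Istd k s j`; `coeff (p ^ (j+1))` maps to `ww D j = c (X j)`; `top`: the constant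
coefficient is `1` (`special F' = Γ`, `[p]_Γ = x ^ q`).
-/

open MvPowerSeries

namespace Pool.Agent.H61.CA

open Pool.Agent.H13.CA

section

variable {k : Type*} [Field k] {p s : ℕ} {F : FormalGroup (MvPowerSeries (Fin (s + 1)) k)}
  {L : Type*} [Field L] [Algebra k L] [Algebra (PowerSeries k) L]

theorem ht_G [Fact p.Prime] [CharP k p] (hF : IsLT k p (s + 1) F)
    (hinj : Function.Injective (algebraMap (PowerSeries k) L)) (D : Slice k p s F L) :
    H86.NF.HT p (fun j : Fin s => (X j : MvPowerSeries (Fin s) L)) (mulSer D.G p) :=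
  H1.CA.ht_G hF hinj D

theorem span_ww [Fact p.Prime] [CharP k p] (hF : IsLT k p (s + 1) F)
    (hinj : Function.Injective (algebraMap (PowerSeries k) L)) (D : Slice k p s F L) {j : ℕ}
    (hj : j ≤ s) : H86.NF.Ij (ww D) j = Istd L s j :=
  H1.CA.span_ww hF hinj D hj

theorem Sub.c_X {D : Slice k p s F L} (E : Sub D) (j : Fin s) : E.c (X j) = ww D j := by
  rw [E.hcψ, MvPowerSeries.map_X, E.hψ]

theorem Sub.inj {D : Slice k p s F L} (E : Sub D) : Function.Injective E.c :=
  H1.CA.Sub.inj E

theorem Sub.cc {D : Slice k p s F L} (E : Sub D) (f : MvPowerSeries (Fin s) k) :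
    constantCoeff (E.c f) = algebraMap k L (constantCoeff f) := by
  rw [E.hcψ, E.hψ0, MvPowerSeries.constantCoeff_map]

theorem Sub.mem_iff [Fact p.Prime] [CharP k p] (hF : IsLT k p (s + 1) F)
    (hinj : Function.Injective (algebraMap (PowerSeries k) L)) {D : Slice k p s F L} (E : Sub D)
    {j : ℕ} (hj : j ≤ s) (f : MvPowerSeries (Fin s) k) :
    E.c f ∈ Istd L s j ↔ f ∈ Istd k s j :=
  H1.CA.Sub.mem_iff hF hinj E hj f

theorem Sub.map_Istd [Fact p.Prime] [CharP k p] (hF : IsLT k p (s + 1) F)
    (hinj : Function.Injective (algebraMap (PowerSeries k) L)) {D : Slice k p s F L} (E : Sub D)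
    {j : ℕ} (hj : j ≤ s) :
    (Istd k s j).map (E.c : MvPowerSeries (Fin s) k →+* MvPowerSeries (Fin s) L) =
      Istd L s j :=
  H1.CA.Sub.map_Istd hF hinj E hj

theorem Sub.special_eq {D : Slice k p s F L} (E : Sub D) : special E.F' = D.Γ := by
  apply Pool.Agent.H61.CA.map_injective (algebraMap k L) (algebraMap k L).injective
  rw [← D.hsp, ← E.hF']
  unfold special
  rw [Pool.Agent.H61.CA.map_map, Pool.Agent.H61.CA.map_map]
  congr 1
  ext f
  exact (E.cc f).symm

private theorem Ij_X (j : ℕ) :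
    H86.NF.Ij (fun j : Fin s => (X j : MvPowerSeries (Fin s) L)) j = Istd L s j := by
  unfold H86.NF.Ij Istd
  congr 1
  ext x
  constructor
  · rintro ⟨l, hl, rfl⟩
    exact ⟨l, hl, rfl⟩
  · rintro ⟨l, hl, rfl⟩
    exact ⟨l, hl, rfl⟩

private theorem c_coeff {D : Slice k p s F L} (E : Sub D) (i : ℕ) :
    E.c (PowerSeries.coeff i (mulSer E.F' p)) = PowerSeries.coeff i (mulSer D.G p) := by
  have h := mulSer_map E.F' (E.c : MvPowerSeries (Fin s) k →+* MvPowerSeries (Fin s) L) p
  rw [E.hF'] at h
  rw [h, PowerSeries.coeff_map]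
  rfl

theorem Sub.isLT [Fact p.Prime] [CharP k p] (hF : IsLT k p (s + 1) F)
    (hinj : Function.Injective (algebraMap (PowerSeries k) L)) {D : Slice k p s F L} (E : Sub D) :
    IsLT k p s E.F' := by
  have hH := ht_G hF hinj D
  refine ⟨?_, ?_, ?_, ?_⟩
  · apply comm_of_map (E.c : MvPowerSeries (Fin s) k →+* MvPowerSeries (Fin s) L) E.inj
    rw [E.hF']
    exact D.hG
  · intro j hj i hi
    rw [← E.mem_iff hF hinj hj, c_coeff, ← Ij_X]
    rcases Nat.lt_or_ge j s with h | h
    · exact hH.low ⟨j, h⟩ i hi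
    · have h1 : j = s := le_antisymm hj h
      subst h1
      exact hH.last i hi
  · intro j
    have h1 : PowerSeries.coeff (p ^ (j.val + 1)) (mulSer E.F' p) = X j := by
      apply E.inj
      rw [c_coeff, E.c_X]
      rfl
    rw [h1, sub_self]
    exact Ideal.zero_mem _
  · rw [MvPowerSeries.isUnit_iff_constantCoeff]
    have h1 := mulSer_map E.F' (MvPowerSeries.constantCoeff (σ := Fin s) (R := k)) p
    have h2 : E.F'.map (MvPowerSeries.constantCoeff (σ := Fin s) (R := k)) = D.Γ :=
      Sub.special_eq E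
    rw [h2, D.hΓp] at h1
    have h3 := congrArg (PowerSeries.coeff (p ^ (s + 1))) h1
    rw [PowerSeries.coeff_map, PowerSeries.coeff_X_pow, if_pos rfl] at h3
    rw [← h3]
    exact isUnit_one

/-- a series fixed by `GSet D V` lies in the range of `c` -/
theorem Sub.c_fixed [Fact p.Prime] [CharP k p] {D : Slice k p s F L} (E : Sub D)
    {V : Subgroup (Lift k F)} {α : MvPowerSeries (Fin s) L ≃ₐ[k] MvPowerSeries (Fin s) L}
    (h : α ∈ GSet D V) (f : MvPowerSeries (Fin s) k) : α (E.c f) = E.c f := by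
  have h1 : E.c = (α : MvPowerSeries (Fin s) L →ₐ[k] MvPowerSeries (Fin s) L).comp E.c := by
    apply algHom_ext_mv
    · intro i
      rw [E.cc, MvPowerSeries.constantCoeff_X, map_zero]
    · intro i
      rw [AlgHom.comp_apply, E.c_X]
      exact (gset_ww D h i).symm
  exact (DFunLike.congr_fun h1 f).symm

end

variable {k : Type*} [Field k] {K L : Type*} [Field K] [Field L] [Algebra k K] [Algebra k L]
    [Algebra (PowerSeries k) K] [IsFractionRing (PowerSeries k) K]
    [Algebra K L] [Algebra (PowerSeries k) L]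
    [IsScalarTower k (PowerSeries k) K] [IsScalarTower k K L]
    [IsScalarTower (PowerSeries k) K L] [IsSepClosure K L]
    [IsAlgClosed k] (p : ℕ) [Fact p.Prime] [CharP k p] {s : ℕ}
    {F : FormalGroup (MvPowerSeries (Fin (s + 1)) k)}

omit [Algebra k K] [Algebra k L] [IsScalarTower k (PowerSeries k) K] [IsScalarTower k K L]
  [IsSepClosure K L] [IsAlgClosed k] in
include K in
private theorem inj_alg : Function.Injective (algebraMap (PowerSeries k) L) := by
  rw [IsScalarTower.algebraMap_eq (PowerSeries k) K L]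
  exact (algebraMap K L).injective.comp (IsFractionRing.injective (PowerSeries k) K)

private theorem span_range (hF : IsLT k p (s + 1) F)
    (hinj : Function.Injective (algebraMap (PowerSeries k) L)) (D : Slice k p s F L) :
    Ideal.span (Set.range (ww D)) =
      Ideal.span (Set.range (X : Fin s → MvPowerSeries (Fin s) L)) := by
  have h1 := span_ww hF hinj D le_rfl
  rw [H86.NF.Ij_last] at h1
  rw [h1]
  unfold Istd
  congr 1
  ext x
  constructor
  · rintro ⟨l, -, rfl⟩
    exact ⟨l, rfl⟩
  · rintro ⟨l, rfl⟩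
    exact ⟨l, l.2, rfl⟩

/-- fixed elements come from `k⟦X⟧` -/
private theorem range_of_fixed (hF : IsLT k p (s + 1) F) (D : Slice k p s F L)
    (V : Subgroup (Lift k F))
    {c : MvPowerSeries (Fin s) k →ₐ[k] MvPowerSeries (Fin s) L}
    (hc0 : ∀ i, constantCoeff (c (X i)) = 0) (hcX : ∀ i, c (X i) = ww D i)
    (hinj : Function.Injective (algebraMap (PowerSeries k) L))
    (hfc : ∀ x : L, (∀ α ∈ GSet D V, constantCoeff (α (C x)) = x) → ∃ a : k, algebraMap k L a = x)
    (x : MvPowerSeries (Fin s) L)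
    (hx : ∀ α ∈ GSet D V, α x = x) : ∃ y, c y = x := by
  refine desc_inv hc0 ?_ (GSet D V) ?_ ?_ hfc x hx
  · rw [← span_range p hF hinj D]
    congr 2
    ext1 i
    exact hcX i
  · intro α hα f
    have h1 : c = (α : MvPowerSeries (Fin s) L →ₐ[k] MvPowerSeries (Fin s) L).comp c := by
      apply algHom_ext_mv hc0
      intro i
      rw [AlgHom.comp_apply, hcX]
      exact (gset_ww D hα i).symm
    exact (DFunLike.congr_fun h1 f).symm
  · rintro α ⟨a, -, -, h, -⟩
    exact h

include K in
theorem exists_sub (hF : IsLT k p (s + 1) F) (D : Slice k p s F L) (V : Subgroup (Lift k F))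
    (hV : BigSub V) : Nonempty (Sub D) := by
  have hinj := inj_alg (k := k) (K := K) (L := L)
  have hsp := span_range p hF hinj D
  obtain ⟨ψ, h1, -, h3⟩ := coord (ww D) hsp
  let c : MvPowerSeries (Fin s) k →ₐ[k] MvPowerSeries (Fin s) L :=
    { (ψ : MvPowerSeries (Fin s) L →+* MvPowerSeries (Fin s) L).comp
        (MvPowerSeries.map (algebraMap k L)) with
      commutes' := by
        intro a
        change ψ (MvPowerSeries.map (algebraMap k L) (algebraMap k (MvPowerSeries (Fin s) k) a)) = _
        have e1 : MvPowerSeries.map (algebraMap k L) (algebraMap k (MvPowerSeries (Fin s) k) a) =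
            algebraMap L (MvPowerSeries (Fin s) L) (algebraMap k L a) := by
          rw [MvPowerSeries.algebraMap_apply, MvPowerSeries.algebraMap_apply, MvPowerSeries.map_C]
          rfl
        rw [e1, AlgEquiv.commutes, MvPowerSeries.algebraMap_apply, MvPowerSeries.algebraMap_apply]
        rfl }
  have hcψ : ∀ f, c f = ψ (MvPowerSeries.map (algebraMap k L) f) := fun f => rfl
  have hcX : ∀ i, c (X i) = ww D i := fun i => by rw [hcψ, MvPowerSeries.map_X, h1]
  have hc0 : ∀ i, constantCoeff (c (X i)) = 0 := fun i => by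
    rw [hcψ, h3, MvPowerSeries.map_X, MvPowerSeries.constantCoeff_X]
  have hcinj : Function.Injective c := by
    intro f g hfg
    rw [hcψ, hcψ] at hfg
    have h5 := ψ.injective hfg
    ext d
    have h6 := congrArg (coeff d) h5
    rw [MvPowerSeries.coeff_map, MvPowerSeries.coeff_map] at h6
    exact (algebraMap k L).injective h6
  obtain ⟨F', hF'⟩ := exists_descent
    (c : MvPowerSeries (Fin s) k →+* MvPowerSeries (Fin s) L) hcinj D.G (fun d => by
      obtain ⟨y, hy⟩ := range_of_fixed p hF D V hc0 hcX hinj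
        (fix_const (K := K) p hF D V hV) (MvPowerSeries.coeff d D.G.toPowerSeries) (fun α hα => by
          have h7 := gset_fix D hα
          have h8 := congrArg (fun G : FormalGroup (MvPowerSeries (Fin s) L) =>
            MvPowerSeries.coeff d G.toPowerSeries) h7
          exact h8)
      exact ⟨y, hy⟩)
  exact ⟨{ c := c, ψ := ψ, hψ := h1, hψ0 := h3, hcψ := hcψ, F' := F', hF' := hF' }⟩

include K in
theorem Sub.mem_range (hF : IsLT k p (s + 1) F) {D : Slice k p s F L} (E : Sub D)
    (V : Subgroup (Lift k F)) (hV : BigSub V) (x : MvPowerSeries (Fin s) L)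
    (hx : ∀ α ∈ GSet D V, α x = x) : ∃ y, E.c y = x := by
  have hinj := inj_alg (k := k) (K := K) (L := L)
  have hcX : ∀ i, E.c (X i) = ww D i := fun i => by rw [E.hcψ, MvPowerSeries.map_X, E.hψ]
  have hc0 : ∀ i, constantCoeff (E.c (X i)) = 0 := fun i => by
    rw [E.hcψ, E.hψ0, MvPowerSeries.map_X, MvPowerSeries.constantCoeff_X]
  exact range_of_fixed p hF D V hc0 hcX hinj (fix_const (K := K) p hF D V hV) x hx

end Pool.Agent.H61.CA
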