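import Pool.Agent.H61.CA.C5
import Pool.Agent.H61.CA.C6

/-!
# CORE C7: every automorphism of `Γ` lifts to a pair over `k⟦X_0, .., X_(s-1)⟧`

PROOF.  `γ := exists_gal θ`.  For `f ∈ k⟦X⟧`, `α ∈ GSet D V`: `(γ⁻¹ α γ) ∈ GSet D V` (`IsGal.conj_mem`) fixes `c f`
(`Sub.c_fixed`), so `α (γ (c f)) = γ (c f)`: `γ (c f) ∈ range c` (`Sub.mem_range`).  The same for
`γ⁻¹` (`IsGal.symm`).  So `γ` restricts to a `k`-automorphism `g` of `k⟦X⟧`, `c (g f) = γ (c f)`.
`W := (map γ B) ∘ B⁻¹ : G → G.map γ`, `red W = θ ⊗ L`.  For `α ∈ GSet D V` `map α W : G → G.map γ` (all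
coefficients of `G` and of `G.map γ` are in the range of `c`, fixed by `α`) has the same reduction
(`θ` is over `k`), so `map α W = W` (`H86.NF.un`, or `hom_unique`): `W = map c f` (`Sub.mem_range`).
`IsHom F' (F'.map g) f` by injectivity of `c` (`isHom_of_map` in Cnj.lean; `(F'.map g).map c =
F'.map (c ∘ g) = F'.map (γ ∘ c) = G.map γ`).  `f'` by `IsHom.inv`.
-/

open MvPowerSeries

namespace Pool.Agent.H61.CA

open Pool.Agent.H13.CA

variable {k : Type*} [Field k] {K L : Type*} [Field K] [Field L] [Algebra k K] [Algebra k L]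
    [Algebra (PowerSeries k) K] [IsFractionRing (PowerSeries k) K]
    [Algebra K L] [Algebra (PowerSeries k) L]
    [IsScalarTower k (PowerSeries k) K] [IsScalarTower k K L]
    [IsScalarTower (PowerSeries k) K L] [IsSepClosure K L]
    [IsAlgClosed k] (p : ℕ) [Fact p.Prime] [CharP k p] {s : ℕ}
    {F : FormalGroup (MvPowerSeries (Fin (s + 1)) k)}

include K in
private theorem gal_range (hF : IsLT k p (s + 1) F) {D : Slice k p s F L} (E : Sub D)
    (V : Subgroup (Lift k F)) (hV : BigSub V)
    {γ : MvPowerSeries (Fin s) L ≃ₐ[k] MvPowerSeries (Fin s) L} {θ : PowerSeries k}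
    (h : IsGal D γ θ) (f : MvPowerSeries (Fin s) k) : ∃ y, E.c y = γ (E.c f) := by
  refine Sub.mem_range (K := K) p hF E V hV _ fun α hα => ?_
  have h1 := E.c_fixed (h.conj_mem hα) f
  have h2 : γ.symm (α (γ (E.c f))) = E.c f := h1
  have h3 := congrArg γ h2
  rw [AlgEquiv.apply_symm_apply] at h3
  exact h3

include K in
theorem restrict_gal (hF : IsLT k p (s + 1) F) {D : Slice k p s F L} (E : Sub D)
    (V : Subgroup (Lift k F)) (hV : BigSub V)
    {γ : MvPowerSeries (Fin s) L ≃ₐ[k] MvPowerSeries (Fin s) L} {θ : PowerSeries k}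
    (h : IsGal D γ θ) :
    ∃ g : MvPowerSeries (Fin s) k ≃ₐ[k] MvPowerSeries (Fin s) k, ∀ f, E.c (g f) = γ (E.c f) := by
  obtain ⟨θ', h'⟩ := h.symm
  choose G hG using gal_range (K := K) p hF E V hV h
  choose G' hG' using gal_range (K := K) p hF E V hV h'
  refine ⟨{ toFun := G
            invFun := G'
            left_inv := fun f => E.inj ?_
            right_inv := fun f => E.inj ?_
            map_mul' := fun a b => E.inj ?_
            map_add' := fun a b => E.inj ?_
            commutes' := fun r => E.inj ?_ }, fun f => hG f⟩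
  · rw [hG', hG, AlgEquiv.symm_apply_apply]
  · rw [hG, hG', AlgEquiv.apply_symm_apply]
  · rw [hG, map_mul, map_mul, map_mul, hG, hG]
  · rw [hG, map_add, map_add, map_add, hG, hG]
  · rw [hG, AlgHom.commutes, AlgEquiv.commutes]

omit [IsAlgClosed k] [Fact p.Prime] [CharP k p] in
private theorem c7_height {D : Slice k p s F L} : HasHeight p (s + 1) (special D.G) := by
  have h1 : mulSer (special D.G) p = (PowerSeries.X : PowerSeries L) ^ p ^ (s + 1) := by
    rw [D.hsp, mulSer_map, D.hΓp, map_pow, PowerSeries.map_X]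
  constructor
  · intro i hi
    rw [h1, PowerSeries.coeff_X_pow, if_neg (by omega)]
  · rw [h1, PowerSeries.coeff_X_pow, if_pos rfl]
    exact isUnit_one

include K in
theorem exists_lift (hF : IsLT k p (s + 1) F) {D : Slice k p s F L} (E : Sub D)
    (V : Subgroup (Lift k F)) (hV : BigSub V) {θ : PowerSeries k}
    (hθ : IsHom D.Γ D.Γ θ) (hu : IsUnit (PowerSeries.coeff 1 θ)) :
    ∃ b : Lift k E.F', red b.f = θ ∧ ∃ γ, IsGal D γ θ ∧ ∀ f, E.c (b.g f) = γ (E.c f) := by
  obtain ⟨γ, hγ⟩ := exists_gal (K := K) p hF D hθ hu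
  obtain ⟨g, hg⟩ := restrict_gal (K := K) p hF E V hV hγ
  obtain ⟨B', hB', hB'u, hl, hr⟩ := D.hB.inv' D.hBu
  -- the series `W`
  have hFι : (F.map (D.ι : MvPowerSeries (Fin (s + 1)) k →+* MvPowerSeries (Fin s) L)).map
      (γ : MvPowerSeries (Fin s) L →+* MvPowerSeries (Fin s) L) =
      F.map (D.ι : MvPowerSeries (Fin (s + 1)) k →+* MvPowerSeries (Fin s) L) := by
    rw [fmap_map]
    congr 1
    exact RingHom.ext fun f => hγ.fix f
  have hBγ := D.hB.map (γ : MvPowerSeries (Fin s) L →+* MvPowerSeries (Fin s) L)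
  rw [hFι] at hBγ
  have hW := hB'.comp hBγ
  set W := PowerSeries.subst B'
    (PowerSeries.map (γ : MvPowerSeries (Fin s) L →+* MvPowerSeries (Fin s) L) D.B) with hWdef
  have hrW : red W = PowerSeries.map (algebraMap k L) θ := by
    have hB0 : PowerSeries.constantCoeff (red D.B) = 0 := map_hs D.hB.1 _
    have hB0' : PowerSeries.constantCoeff (red B') = 0 := map_hs hB'.1 _
    rw [hWdef, red_subst hB'.1, hγ.red_eq, subst_subst' hB0 hB0', ← red_subst hB'.1, hr, red_X]
    exact PowerSeries.X_subst _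
  -- `G` and `G.map γ`
  have hGγ : D.G.map (γ : MvPowerSeries (Fin s) L →+* MvPowerSeries (Fin s) L) =
      (E.F'.map (g : MvPowerSeries (Fin s) k →+* MvPowerSeries (Fin s) k)).map
        (E.c : MvPowerSeries (Fin s) k →+* MvPowerSeries (Fin s) L) := by
    rw [← E.hF', fmap_map, fmap_map]
    congr 1
    exact RingHom.ext fun f => (hg f).symm
  have hchar : CharP L p := charP_of_injective_algebraMap (algebraMap k L).injective p
  have hfixW : ∀ α ∈ GSet D V,
      PowerSeries.map (α : MvPowerSeries (Fin s) L →+* MvPowerSeries (Fin s) L) W = W := by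
    intro α hα
    have h1 := hW.map (α : MvPowerSeries (Fin s) L →+* MvPowerSeries (Fin s) L)
    rw [gset_fix D hα] at h1
    have h2 : (D.G.map (γ : MvPowerSeries (Fin s) L →+* MvPowerSeries (Fin s) L)).map
        (α : MvPowerSeries (Fin s) L →+* MvPowerSeries (Fin s) L) =
        D.G.map (γ : MvPowerSeries (Fin s) L →+* MvPowerSeries (Fin s) L) := by
      rw [hGγ, fmap_map]
      congr 1
      exact RingHom.ext fun f => E.c_fixed hα f
    rw [h2] at h1
    refine hom_unique p (IsComm.map' D.hG _) (c7_height p) h1 hW ?_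
    obtain ⟨a, -, -, ⟨τ, hτ⟩, -⟩ := hα
    have h3 : red (PowerSeries.map (α : MvPowerSeries (Fin s) L →+* MvPowerSeries (Fin s) L) W) =
        PowerSeries.map (τ : L →+* L) (red W) := by
      ext n
      unfold red
      rw [PowerSeries.coeff_map, PowerSeries.coeff_map, PowerSeries.coeff_map, PowerSeries.coeff_map]
      exact hτ _
    rw [h3, hrW]
    ext n
    rw [PowerSeries.coeff_map, PowerSeries.coeff_map]
    exact τ.commutes _
  have hrange : ∀ n, ∃ y, E.c y = PowerSeries.coeff n W := by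
    intro n
    refine Sub.mem_range (K := K) p hF E V hV _ fun α hα => ?_
    have h1 := congrArg (PowerSeries.coeff n) (hfixW α hα)
    rw [PowerSeries.coeff_map] at h1
    exact h1
  choose T hT using hrange
  have hmap : PowerSeries.map (E.c : MvPowerSeries (Fin s) k →+* MvPowerSeries (Fin s) L)
      (PowerSeries.mk T) = W := by
    ext n : 1
    rw [PowerSeries.coeff_map, PowerSeries.coeff_mk]
    exact hT n
  have hhom : IsHom E.F' (E.F'.map (g : MvPowerSeries (Fin s) k →+* MvPowerSeries (Fin s) k))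
      (PowerSeries.mk T) := by
    refine isHom_of_map (E.c : MvPowerSeries (Fin s) k →+* MvPowerSeries (Fin s) L) E.inj ?_
    rw [hmap, ← hGγ, E.hF']
    exact hW
  have hred : red (PowerSeries.mk T) = θ := by
    have h1 : PowerSeries.map (algebraMap k L) (red (PowerSeries.mk T)) =
        PowerSeries.map (algebraMap k L) θ := by
      rw [← hrW, ← hmap]
      ext n
      unfold red
      rw [PowerSeries.coeff_map, PowerSeries.coeff_map, PowerSeries.coeff_map, PowerSeries.coeff_map]
      exact (E.cc _).symm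
    ext n
    have h2 := congrArg (PowerSeries.coeff n) h1
    rw [PowerSeries.coeff_map, PowerSeries.coeff_map] at h2
    exact (algebraMap k L).injective h2
  have hunit : IsUnit (PowerSeries.coeff 1 (PowerSeries.mk T)) := by
    rw [MvPowerSeries.isUnit_iff_constantCoeff]
    rw [← hred] at hu
    unfold red at hu
    rw [PowerSeries.coeff_map] at hu
    exact hu
  obtain ⟨b, hb1, hb2⟩ := Lift.exists_of g _ hhom hunit
  refine ⟨b, ?_, γ, hγ, fun f => ?_⟩
  · rw [hb2, hred]
  · rw [hb1, hg]

end Pool.Agent.H61.CA
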